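import Pool.Agent.H29.BH.Targets1

/-!
# The inequality of Loomis and Whitney for the complete graph with four vertices
-/

set_option autoImplicit false

open MeasureTheory
open scoped ENNReal

namespace Pool.Agent.H18.BH

open Pool.Agent.H29.BH

private lemma cs_tsum {ι : Type} (f g : ι → ℝ≥0∞) :
    ∑' i, f i * g i ≤ (∑' i, f i ^ 2) ^ (1 / 2 : ℝ) * (∑' i, g i ^ 2) ^ (1 / 2 : ℝ) := by
  let _ : MeasurableSpace ι := ⊤
  have hpq : (2 : ℝ).HolderConjugate 2 := Real.HolderConjugate.two_two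
  have h := ENNReal.lintegral_mul_le_Lp_mul_Lq (Measure.count : Measure ι) hpq
    (f := f) (g := g) (measurable_from_top.aemeasurable) (measurable_from_top.aemeasurable)
  simp only [lintegral_count, Pi.mul_apply] at h
  have e : ∀ x : ℝ≥0∞, x ^ (2 : ℝ) = x ^ 2 := fun x => by
    rw [← ENNReal.rpow_natCast]; norm_num
  simpa only [e] using h

private lemma sq_half (x : ℝ≥0∞) : (x ^ (1 / 2 : ℝ)) ^ 2 = x := by
  rw [← ENNReal.rpow_natCast, ← ENNReal.rpow_mul]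
  norm_num

private lemma tri {G : Type} (A B D : G → G → ℝ≥0∞) :
    ∑' a, ∑' b, ∑' c, A a b * B b c * D a c ≤
      (∑' a, ∑' b, A a b ^ 2) ^ (1 / 2 : ℝ) * (∑' b, ∑' c, B b c ^ 2) ^ (1 / 2 : ℝ) *
        (∑' a, ∑' c, D a c ^ 2) ^ (1 / 2 : ℝ) := by
  set SB := (∑' b, ∑' c, B b c ^ 2) with hSB
  have h1 : ∀ a, ∑' b, ∑' c, A a b * B b c * D a c ≤
      ((∑' b, A a b ^ 2) ^ (1 / 2 : ℝ) * (∑' c, D a c ^ 2) ^ (1 / 2 : ℝ)) * SB ^ (1 / 2 : ℝ) := by
    intro a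
    have h := cs_tsum (fun p : G × G => A a p.1 * D a p.2) (fun p : G × G => B p.1 p.2)
    rw [ENNReal.tsum_prod (f := fun b c => A a b * D a c * B b c),
      ENNReal.tsum_prod (f := fun b c => (A a b * D a c) ^ 2),
      ENNReal.tsum_prod (f := fun b c => B b c ^ 2)] at h
    have e1 : ∑' b, ∑' c, A a b * B b c * D a c = ∑' b, ∑' c, A a b * D a c * B b c := by
      refine tsum_congr fun b => tsum_congr fun c => ?_
      ring
    have e2 : ∑' b, ∑' c, (A a b * D a c) ^ 2 = (∑' b, A a b ^ 2) * ∑' c, D a c ^ 2 := by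
      simp only [mul_pow, ENNReal.tsum_mul_left, ENNReal.tsum_mul_right]
    rw [e1]
    refine h.trans ?_
    rw [e2, ENNReal.mul_rpow_of_nonneg _ _ (by norm_num : (0 : ℝ) ≤ 1 / 2)]
  refine (ENNReal.tsum_le_tsum h1).trans ?_
  rw [ENNReal.tsum_mul_right]
  have h2 := cs_tsum (fun a => (∑' b, A a b ^ 2) ^ (1 / 2 : ℝ))
    (fun a => (∑' c, D a c ^ 2) ^ (1 / 2 : ℝ))
  simp only [sq_half] at h2
  calc _ ≤ ((∑' a, ∑' b, A a b ^ 2) ^ (1 / 2 : ℝ) * (∑' a, ∑' c, D a c ^ 2) ^ (1 / 2 : ℝ)) *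
        SB ^ (1 / 2 : ℝ) := by gcongr
    _ = _ := by ring

private lemma sumL {G : Type} [AddCommGroup G] (u v : G → ℝ≥0∞) :
    ∑' a, ∑' b, (u a * v (a - b)) ^ 2 = (∑' a, u a ^ 2) * ∑' b, v b ^ 2 := by
  simp only [mul_pow]
  have : ∀ a, ∑' b, u a ^ 2 * v (a - b) ^ 2 = u a ^ 2 * ∑' b, v b ^ 2 := by
    intro a
    rw [ENNReal.tsum_mul_left]
    congr 1
    exact (Equiv.subLeft a).tsum_eq (fun b => v b ^ 2)
  simp only [this, ENNReal.tsum_mul_right]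

private lemma sumR {G : Type} [AddCommGroup G] (u v : G → ℝ≥0∞) :
    ∑' a, ∑' c, (u c * v (a - c)) ^ 2 = (∑' a, u a ^ 2) * ∑' b, v b ^ 2 := by
  rw [ENNReal.tsum_comm]
  simp only [mul_pow]
  have : ∀ c, ∑' a, u c ^ 2 * v (a - c) ^ 2 = u c ^ 2 * ∑' b, v b ^ 2 := by
    intro c
    rw [ENNReal.tsum_mul_left]
    congr 1
    exact (Equiv.subRight c).tsum_eq (fun b => v b ^ 2)
  simp only [this, ENNReal.tsum_mul_right]

theorem pf_K_K4 : K_K4 := by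
  intro G _ w
  have h := tri (fun a b => w 0 a * w 3 (a - b)) (fun b c => w 1 b * w 5 (b - c))
    (fun a c => w 2 c * w 4 (a - c))
  have e1 : ∑' a : G, ∑' b : G, ∑' c : G, w 0 a * w 1 b * w 2 c * w 3 (a - b) * w 4 (a - c) *
      w 5 (b - c) = ∑' a, ∑' b, ∑' c, (w 0 a * w 3 (a - b)) * (w 1 b * w 5 (b - c)) *
        (w 2 c * w 4 (a - c)) := by
    refine tsum_congr fun a => tsum_congr fun b => tsum_congr fun c => ?_
    ring
  rw [e1]
  refine h.trans (le_of_eq ?_)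
  rw [sumL, sumL, sumR]
  simp only [ENNReal.mul_rpow_of_nonneg _ _ (by norm_num : (0 : ℝ) ≤ 1 / 2)]
  rw [Fin.prod_univ_six]
  ring

end Pool.Agent.H18.BH
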