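import Pool.Agent.H29.BH.Targets2
import Pool.Agent.H29.DW.Tools
import Pool.Agent.H23.LC.Targets
import Pool.Agent.H28.RC.Targets1

/-!
# The fourth moment
-/

set_option autoImplicit false

open NumberField NumberField.InfinitePlace MeasureTheory
open scoped nonZeroDivisors ENNReal

namespace Pool.Agent.H18.BH

open Pool.Agent.H25.HK Pool.Agent.H23.LB Pool.Agent.H23.LC Pool.Agent.H29.DW Pool.Agent.H29.BH
open Pool.Agent.H28.RC (Rep ft idl)
open Pool.Agent.H29.TC (dvs)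
open Pool.Agent.H23.BG (c4M)

namespace M4

section

variable {K : Type} [Field K] [NumberField K]

private lemma nf_one_le' {I : Ideal (𝓞 K)} (h : I ≠ ⊥) : 1 ≤ Nf K I := by
  unfold Nf
  have : Ideal.absNorm I ≠ 0 := by rwa [Ne, Ideal.absNorm_eq_zero_iff]
  exact_mod_cast Nat.one_le_iff_ne_zero.mpr this

private lemma sy_sub' (y : InfinitePlace K → ℝ) (a b : K) (v : InfinitePlace K) :
    sy y (a - b) v = sy y a v - sy y b v := by
  simp [sy, map_sub, sub_mul]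

private lemma sy_zero' (y : InfinitePlace K → ℝ) (v : InfinitePlace K) :
    sy y (0 : K) v = 0 := by
  simp [sy]

private lemma sy_ne {y : InfinitePlace K → ℝ} {a b : K} (h : a ≠ b) (v : InfinitePlace K) :
    sy y a v ≠ sy y b v := by
  intro h1
  have h2 : sy y (a - b) v = 0 := by rw [sy_sub', h1, sub_self]
  unfold sy at h2
  rcases mul_eq_zero.mp h2 with h3 | h3
  · exact h (sub_eq_zero.mp ((map_eq_zero _).mp h3))
  · have := Real.exp_pos (y v / 2)
    rw [Complex.ofReal_eq_zero] at h3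
    linarith

private lemma Rl_sy (y : InfinitePlace K → ℝ) (x : K) (v : InfinitePlace K) :
    Rl (rv v) (sy y x v) := by
  have h := Rl_wv v x y (ω := fun _ => 1) ⟨fun v => by simp, fun v _ => by simp⟩
  unfold wv at h
  rw [mul_one] at h
  exact h

private lemma nx_eq (y : InfinitePlace K → ℝ) (b : Fin 4 → K) :
    nx y b = ∏ v : InfinitePlace K, cx (fun i => sy y (b i) v) ^ v.mult := by
  unfold nx nv cx
  simp only [sy_sub', mul_pow, Finset.prod_mul_distrib]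

private lemma prod_le {ι : Type} [Fintype ι] (J : ι → ℝ≥0∞) (a : ι → ℝ) (ha : ∀ v, 0 ≤ a v)
    (h : ∀ v, J v ≤ ENNReal.ofReal (a v)) : ∏ v, J v ≤ ENNReal.ofReal (∏ v, a v) := by
  rw [ENNReal.ofReal_prod_of_nonneg (fun v _ => ha v)]
  exact Finset.prod_le_prod' fun v _ => h v

private lemma toReal_prod_le {ι : Type} [Fintype ι] (J : ι → ℝ≥0∞) (a : ι → ℝ)
    (ha : ∀ v, 0 ≤ a v) (h : ∀ v, J v ≤ ENNReal.ofReal (a v)) :
    (∏ v, J v).toReal ≤ ∏ v, a v :=
  ENNReal.toReal_le_of_le_ofReal (Finset.prod_nonneg fun v _ => ha v) (prod_le J a ha h)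

private lemma pow_rpow {x : ℝ} (hx : 0 ≤ x) (m : ℕ) (r : ℝ) :
    x ^ ((m : ℝ) * r) = (x ^ m) ^ r := by
  rw [Real.rpow_mul hx, Real.rpow_natCast]

private lemma card_dvs' {f : Ideal (𝓞 K)} (hf : f ≠ ⊥) : 1 ≤ ((dvs K f).card : ℝ) := by
  have hfin : {e : Ideal (𝓞 K) | f ≤ e}.Finite := by
    refine (Ideal.finite_setOfPred_absNorm_le (Ideal.absNorm f)).subset ?_
    intro e he
    have h1 : Ideal.absNorm e ∣ Ideal.absNorm f := Ideal.absNorm_dvd_absNorm_of_le he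
    have h2 : 0 < Ideal.absNorm f := by
      have : Ideal.absNorm f ≠ 0 := by rwa [Ne, Ideal.absNorm_eq_zero_iff]
      omega
    exact Nat.le_of_dvd h2 h1
  have : f ∈ dvs K f := by
    unfold dvs
    rw [dif_pos hfin]
    simp
  exact_mod_cast Finset.card_pos.mpr ⟨f, this⟩

private lemma cc_one (k : ℤ) (μ : ℂ) : 1 ≤ cc k μ := by
  unfold cc
  have := abs_nonneg μ.im
  have := abs_nonneg (k : ℝ)
  linarith

private lemma cK_one (k : InfinitePlace K → ℤ) (μ : InfinitePlace K → ℂ) : 1 ≤ cK k μ := by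
  unfold cK
  have : ∀ v : InfinitePlace K, 1 ≤ cc (k v) (μ v) ^ v.mult :=
    fun v => one_le_pow₀ (cc_one _ _)
  calc (1 : ℝ) = ∏ _v : InfinitePlace K, (1 : ℝ) := by simp
    _ ≤ _ := Finset.prod_le_prod (fun _ _ => zero_le_one) (fun v _ => this v)

private lemma genP (k : InfinitePlace K → ℤ) (μ : InfinitePlace K → ℂ) (y : InfinitePlace K → ℝ)
    (b : Fin 4 → K) (c ε : ℝ) (hc : 0 ≤ c) (J : InfinitePlace K → ℝ≥0∞)
    (h : ∀ v, J v ≤ ENNReal.ofReal (c * (cc (k v) (μ v) ^ ((dg (rv v) : ℝ) * (1 / 2 - ε)) *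
      cx (fun i => sy y (b i) v) ^ ((dg (rv v) : ℝ) * (1 / 4 + ε)))⁻¹)) :
    (∏ v, J v).toReal ≤ c ^ Fintype.card (InfinitePlace K) *
      (cK k μ ^ (-(1 / 2 - ε)) * nx y b ^ (-(1 / 4 + ε))) := by
  have cc0 : ∀ v : InfinitePlace K, 0 ≤ cc (k v) (μ v) := fun v => by linarith [cc_one (k v) (μ v)]
  have cx0 : ∀ v : InfinitePlace K, 0 ≤ cx (fun i => sy y (b i) v) := fun v => by
    unfold cx; positivity
  refine (toReal_prod_le J _ (fun v => ?_) h).trans (le_of_eq ?_)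
  · have := cc0 v
    have := cx0 v
    positivity
  · rw [Finset.prod_mul_distrib, Finset.prod_const, Finset.card_univ]
    congr 1
    rw [Finset.prod_inv_distrib, Finset.prod_mul_distrib]
    have e1 : ∏ v : InfinitePlace K, cc (k v) (μ v) ^ ((dg (rv v) : ℝ) * (1 / 2 - ε)) =
        cK k μ ^ (1 / 2 - ε) := by
      unfold cK
      rw [← Real.finsetProd_rpow _ _ (fun v _ => pow_nonneg (cc0 v) _)]
      exact Finset.prod_congr rfl fun v _ => by rw [dg_rv, pow_rpow (cc0 v)]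
    have e2 : ∏ v : InfinitePlace K, cx (fun i => sy y (b i) v) ^
        ((dg (rv v) : ℝ) * (1 / 4 + ε)) = nx y b ^ (1 / 4 + ε) := by
      rw [nx_eq, ← Real.finsetProd_rpow _ _ (fun v _ => pow_nonneg (cx0 v) _)]
      exact Finset.prod_congr rfl fun v _ => by rw [dg_rv, pow_rpow (cx0 v)]
    rw [e1, e2, mul_inv, Real.rpow_neg (by linarith [cK_one k μ]), Real.rpow_neg]
    rw [nx_eq]
    exact Finset.prod_nonneg fun v _ => pow_nonneg (cx0 v) _

private lemma degP (k : InfinitePlace K → ℤ) (μ : InfinitePlace K → ℂ) (y : InfinitePlace K → ℝ)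
    (x x' : K) (c : ℝ) (hc : 0 ≤ c) (J : InfinitePlace K → ℝ≥0∞)
    (h : ∀ v, J v ≤ ENNReal.ofReal (c * ((cc (k v) (μ v) * ‖sy y x v - sy y x' v‖) ^
      ((dg (rv v) : ℝ) / 2))⁻¹)) :
    (∏ v, J v).toReal ≤ c ^ Fintype.card (InfinitePlace K) *
      (cK k μ * nv y (x - x')) ^ (-(1 / 2) : ℝ) := by
  have cc0 : ∀ v : InfinitePlace K, 0 ≤ cc (k v) (μ v) := fun v => by linarith [cc_one (k v) (μ v)]
  have h0 : ∀ v : InfinitePlace K, 0 ≤ cc (k v) (μ v) * ‖sy y x v - sy y x' v‖ := fun v =>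
    mul_nonneg (cc0 v) (norm_nonneg _)
  refine (toReal_prod_le J _ (fun v => ?_) h).trans (le_of_eq ?_)
  · have := h0 v
    positivity
  · rw [Finset.prod_mul_distrib, Finset.prod_const, Finset.card_univ]
    congr 1
    rw [Finset.prod_inv_distrib]
    have e1 : cK k μ * nv y (x - x') =
        ∏ v : InfinitePlace K, (cc (k v) (μ v) * ‖sy y x v - sy y x' v‖) ^ v.mult := by
      unfold cK nv
      rw [← Finset.prod_mul_distrib]
      exact Finset.prod_congr rfl fun v _ => by rw [sy_sub', mul_pow]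
    rw [e1, Real.rpow_neg (Finset.prod_nonneg fun v _ => pow_nonneg (h0 v) _),
      ← Real.finsetProd_rpow _ _ (fun v _ => pow_nonneg (h0 v) _)]
    congr 1
    exact Finset.prod_congr rfl fun v _ => by
      rw [dg_rv, ← pow_rpow (h0 v)]
      congr 1
      ring

end

private lemma sq_bound {c A N W G : ℝ} (hA : 0 ≤ A) (hN : 0 ≤ N) (hW : 0 ≤ W) (hG : 0 ≤ G)
    (hc : 0 ≤ c) (h : c ^ 2 ≤ A ^ 2 * N * (W * G)) :
    c ≤ A * (N ^ (1 / 2 : ℝ) * (W ^ (1 / 2 : ℝ) * G ^ (1 / 2 : ℝ))) := by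
  have h1 : (A * (N ^ (1 / 2 : ℝ) * (W ^ (1 / 2 : ℝ) * G ^ (1 / 2 : ℝ)))) ^ 2 =
      A ^ 2 * N * (W * G) := by
    rw [← Real.sqrt_eq_rpow, ← Real.sqrt_eq_rpow, ← Real.sqrt_eq_rpow]
    rw [mul_pow, mul_pow, mul_pow, Real.sq_sqrt hN, Real.sq_sqrt hW, Real.sq_sqrt hG]
    ring
  have h2 : 0 ≤ A * (N ^ (1 / 2 : ℝ) * (W ^ (1 / 2 : ℝ) * G ^ (1 / 2 : ℝ))) := by positivity
  rw [← h1] at h
  exact (pow_le_pow_iff_left₀ hc h2 two_ne_zero).mp h

private lemma Ule {c P c1 A0 x z : ℝ} (hc1 : 0 < c1) (hA0 : 0 < A0) (hc : 0 ≤ c) (hP0 : 0 ≤ P)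
    (hx : c ≤ A0 * x) (hP : P ≤ c1 * z) : c * P / (c1 * A0) ≤ x * z := by
  rw [div_le_iff₀ (by positivity)]
  calc c * P ≤ (A0 * x) * (c1 * z) := mul_le_mul hx hP hP0 (hc.trans hx)
    _ = _ := by ring

end M4

open M4

theorem pf_M_4 (hA : M_A) (hC : M_C) (hJ : A_J) (hF6 : F_6) (_hNV : K_NV)
    (hRX : Pool.Agent.H28.RC.T_RX) (hCG : U_CG) : M_4 := by
  classical
  intro n hn ε hε hε8
  obtain ⟨C1, hC1, hj⟩ := hJ ε hε (by linarith)
  obtain ⟨C2, hC2, hc⟩ := hC n hn ε hε hε8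
  have h4 : (1 : ℝ) ≤ 4 ^ (n * (n + 1)) := one_le_pow₀ (by norm_num)
  refine ⟨C1 ^ n * 4 ^ (n * (n + 1)) * C2,
    one_le_mul_of_one_le_of_one_le (one_le_mul_of_one_le_of_one_le (one_le_pow₀ hC1) h4) hC2, ?_⟩
  intro K _ _ hK f hf χ hχ L y S μ B A hL hS hQ hB hAmp
  obtain ⟨X, hX, -⟩ := hRX K f L hf hL
  have hcg := hCG K f χ L hf hL
  have key := hA K f L y S X (cg χ L) χ.k μ B A hf hL hS hX hcg.2.1 hcg.2.2.2.1 hQ hAmp
  have h6 := hF6 n K hK f hf χ hχ L X hL hX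
  have hD := card_dvs' hf
  set D := ((dvs K f).card : ℝ) with hDdef
  set np := Fintype.card (InfinitePlace K) with hnp
  have hnpn : np ≤ n := card_places_le hK
  set c := C1 * B ^ 4 with hcdef
  have hc1' : 1 ≤ c := one_le_mul_of_one_le_of_one_le hC1 (one_le_pow₀ hB)
  have hc0 : 0 ≤ c := by linarith
  set c1 := c ^ np with hc1
  have hc1pos : 0 < c1 := by positivity
  set A0 : ℝ := 4 ^ (n * (n + 1)) * D ^ 2 with hA0
  have hA0D : D ≤ A0 := by
    rw [hA0]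
    nlinarith [mul_le_mul h4 (le_refl (D ^ 2)) (by positivity) (by positivity)]
  have hA01 : 1 ≤ A0 := hD.trans hA0D
  have hA0pos : 0 < A0 := by linarith
  have hN := nf_one_le' hf
  have hQ1 := cK_one χ.k μ
  set Q := cK χ.k μ with hQdef
  set P : (Fin 4 → K) → ℝ≥0∞ := fun b =>
    ∏ v : InfinitePlace K, Jv (rv v) (χ.k v) (μ v) (A v) (fun i => sy y (b i) v) with hP
  have loc : ∀ b : Fin 4 → K, b 0 = 0 → ∀ v, _ := fun b hb v =>
    hj (rv v) (χ.k v) (μ v) B (A v) (fun i => sy y (b i) v) (hQ.loc v) hB (hAmp.smooth v)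
      (fun b z h => ((hAmp.bound v b z).2 h).1) (fun i => Rl_sy y (b i) v)
      (by rw [hb]; exact sy_zero' y v)
  have Ptriv : ∀ b : Fin 4 → K, b 0 = 0 → P b ≤ ENNReal.ofReal c1 := by
    intro b hb
    have h := prod_le (fun v => Jv (rv v) (χ.k v) (μ v) (A v) (fun i => sy y (b i) v))
      (fun _ => c) (fun _ => hc0) (fun v => (loc b hb v).1)
    rwa [Finset.prod_const, Finset.card_univ] at h
  have Ptop : ∀ b : Fin 4 → K, b 0 = 0 → P b ≠ ⊤ := fun b hb =>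
    ne_top_of_le_ne_top ENNReal.ofReal_ne_top (Ptriv b hb)
  set U : (Fin 4 → K) → ℝ := fun b => ‖c4M K X (cg χ L) b‖ * (P b).toReal / (c1 * A0) with hU
  have wf0 : ∀ x : K, 0 ≤ wf K f L x := fun x => by unfold wf Nf; positivity
  have hUb : Ub f L y ε Q U := by
    refine ⟨?_, ?_, ?_, ?_, ?_, ?_⟩
    · intro b hb hb0
      have h1 := (h6 b hb).1
      have h2 : (P b).toReal ≤ c1 * 1 := by
        rw [mul_one]
        exact ENNReal.toReal_le_of_le_ofReal hc1pos.le (Ptriv b hb0)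
      have h3 := Ule (x := Nf K f) hc1pos hA0pos (norm_nonneg _) ENNReal.toReal_nonneg
        (h1.trans (by nlinarith)) h2
      rwa [mul_one] at h3
    · intro b hb hb0 hnx
      have h1 := (h6 b hb).2.1
      have hcx : ∀ v : InfinitePlace K, cx (fun i => sy y (b i) v) ≠ 0 := by
        intro v h
        apply hnx
        rw [nx_eq]
        exact Finset.prod_eq_zero (Finset.mem_univ v)
          (by rw [h]; exact zero_pow (InfinitePlace.mult_pos).ne')
      have h2 := genP χ.k μ y b c ε hc0 _ (fun v => (loc b hb0 v).2.2.1 (hcx v))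
      have hw : 0 ≤ wx f L b := by
        unfold wx
        have a1 := wf0 (b 0 - b 2)
        have a2 := wf0 (b 0 - b 3)
        have a3 := wf0 (b 1 - b 2)
        have a4 := wf0 (b 1 - b 3)
        positivity
      have hg : 0 ≤ gx f L b := by unfold gx Nf; positivity
      have h3 := sq_bound (A := A0) (N := Nf K f) (W := wx f L b) (G := gx f L b) hA0pos.le
        (by linarith) hw hg (norm_nonneg _) h1
      have h4 := Ule hc1pos hA0pos (norm_nonneg _) ENNReal.toReal_nonneg h3 h2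
      refine h4.trans (le_of_eq ?_)
      have hQ0 : 0 < Q := by linarith
      have e1 : Q ^ (-(1 / 2 - ε)) = (Q ^ (1 / 2 : ℝ))⁻¹ * Q ^ ε := by
        rw [show -(1 / 2 - ε) = -(1 / 2 : ℝ) + ε by ring, Real.rpow_add hQ0,
          Real.rpow_neg hQ0.le]
      rw [Real.div_rpow (by linarith) hQ0.le, e1]
      field_simp
    · intro b hb hb0 h02 h13
      have h1 := (h6 b hb).2.2.1 h02
      have h2 := degP χ.k μ y (b 1) (b 3) c hc0 _
        (fun v => (loc b hb0 v).2.2.2.1 (by simp only [h02]) (sy_ne h13 v))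
      exact Ule hc1pos hA0pos (norm_nonneg _) ENNReal.toReal_nonneg
        (h1.trans (mul_le_mul_of_nonneg_right hA0D (wf0 _))) h2
    · intro b hb hb0 h03 h12
      have h1 := (h6 b hb).2.2.2.1 h03
      have h2 := degP χ.k μ y (b 1) (b 2) c hc0 _
        (fun v => (loc b hb0 v).2.2.2.2.1 (by simp only [h03]) (sy_ne h12 v))
      exact Ule hc1pos hA0pos (norm_nonneg _) ENNReal.toReal_nonneg
        (h1.trans (mul_le_mul_of_nonneg_right hA0D (wf0 _))) h2
    · intro b hb hb0 h12 h03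
      have h1 := (h6 b hb).2.2.2.2.1 h12
      have h2 := degP χ.k μ y (b 0) (b 3) c hc0 _
        (fun v => (loc b hb0 v).2.2.2.2.2.1 (by simp only [h12]) (sy_ne h03 v))
      exact Ule hc1pos hA0pos (norm_nonneg _) ENNReal.toReal_nonneg
        (h1.trans (mul_le_mul_of_nonneg_right hA0D (wf0 _))) h2
    · intro b hb hb0 h13 h02
      have h1 := (h6 b hb).2.2.2.2.2 h13
      have h2 := degP χ.k μ y (b 0) (b 2) c hc0 _
        (fun v => (loc b hb0 v).2.2.2.2.2.2 (by simp only [h13]) (sy_ne h02 v))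
      exact Ule hc1pos hA0pos (norm_nonneg _) ENNReal.toReal_nonneg
        (h1.trans (mul_le_mul_of_nonneg_right hA0D (wf0 _))) h2
  have hsum := hc K hK f L y Q U hf hL hQ1 hUb
  refine key.trans ?_
  have step : ∀ p q s : {x : K // x ∈ L}, ENNReal.ofReal ‖c4M K X (cg χ L) (qd p.1 q.1 s.1)‖ *
      ∏ v : InfinitePlace K, Jv (rv v) (χ.k v) (μ v) (A v) (qd (sy y p.1 v) (sy y q.1 v)
        (sy y s.1 v)) ≤ ENNReal.ofReal (c1 * A0) *
      (if ∀ v, ‖sy y p.1 v‖ ≤ 1 / 4 ∧ ‖sy y q.1 v‖ ≤ 1 / 4 ∧ ‖sy y s.1 v‖ ≤ 1 / 4 then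
        ENNReal.ofReal (U (qd p.1 q.1 s.1)) else 0) := by
    intro p q s
    have hq0 : (qd p.1 q.1 s.1) 0 = 0 := rfl
    have hfun : ∀ v, qd (sy y p.1 v) (sy y q.1 v) (sy y s.1 v) =
        fun i => sy y ((qd p.1 q.1 s.1) i) v := by
      intro v
      funext i
      fin_cases i
      · exact (sy_zero' y v).symm
      · rfl
      · rfl
      · rfl
    simp only [hfun]
    by_cases hbox : ∀ v, ‖sy y p.1 v‖ ≤ 1 / 4 ∧ ‖sy y q.1 v‖ ≤ 1 / 4 ∧ ‖sy y s.1 v‖ ≤ 1 / 4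
    · rw [if_pos hbox]
      change ENNReal.ofReal ‖c4M K X (cg χ L) (qd p.1 q.1 s.1)‖ * P (qd p.1 q.1 s.1) ≤ _
      rw [← ENNReal.ofReal_mul (by positivity), hU]
      simp only
      rw [mul_div_cancel₀ _ (by positivity : c1 * A0 ≠ 0), ENNReal.ofReal_mul (norm_nonneg _),
        ENNReal.ofReal_toReal (Ptop _ hq0)]
    · rw [if_neg hbox]
      push Not at hbox
      obtain ⟨v, hv⟩ := hbox
      have hex : ∃ i, 1 / 4 < ‖sy y ((qd p.1 q.1 s.1) i) v‖ := by
        by_cases h1 : ‖sy y p.1 v‖ ≤ 1 / 4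
        · by_cases h2 : ‖sy y q.1 v‖ ≤ 1 / 4
          · exact ⟨3, hv h1 h2⟩
          · exact ⟨2, not_le.mp h2⟩
        · exact ⟨1, not_le.mp h1⟩
      have h0 := (loc (qd p.1 q.1 s.1) hq0 v).2.1 hex
      rw [Finset.prod_eq_zero (Finset.mem_univ v) h0]
      simp
  refine (ENNReal.tsum_le_tsum fun p => ENNReal.tsum_le_tsum fun q =>
    ENNReal.tsum_le_tsum fun s => step p q s).trans ?_
  simp only [ENNReal.tsum_mul_left]
  refine (mul_le_mul_right hsum _).trans ?_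
  rw [← ENNReal.ofReal_mul (by positivity)]
  apply ENNReal.ofReal_le_ofReal
  have hQ0 : 0 < Q := by linarith
  have hN0 : 0 < Nf K f := by linarith
  have hb0 : 0 < bt L y := (_hNV K L y hL).1
  set Z := Nf K f * (1 + bt L y) + (Nf K f / Q) ^ (1 / 2 : ℝ) * Q ^ ε * bt L y ^ 3 with hZ
  have hZ0 : 0 ≤ Z := by positivity
  have hc1le : c1 ≤ C1 ^ n * B ^ (4 * n) := by
    calc c1 = c ^ np := rfl
      _ ≤ c ^ n := pow_le_pow_right₀ hc1' hnpn
      _ = _ := by rw [hcdef, mul_pow, ← pow_mul]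
  calc c1 * A0 * (C2 * D ^ 3 * Z) ≤ (C1 ^ n * B ^ (4 * n)) * A0 * (C2 * D ^ 3 * Z) := by
        gcongr
    _ = C1 ^ n * 4 ^ (n * (n + 1)) * C2 * B ^ (4 * n) * D ^ 5 * Z := by
        rw [hA0]; ring

end Pool.Agent.H18.BH
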