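import Pool.Agent.H18.BH.M_CB

/-!
# The sum over the quadruples
-/

set_option autoImplicit false

open NumberField NumberField.InfinitePlace MeasureTheory
open scoped nonZeroDivisors ENNReal

namespace Pool.Agent.H18.BH

open Pool.Agent.H29.BH Pool.Agent.H23.LB Pool.Agent.H25.HK
open Pool.Agent.H28.RC (idl)
open Pool.Agent.H29.TC (dvs)
open MC

private lemma card_dvs {K : Type} [Field K] [NumberField K] {f : Ideal (𝓞 K)} (hf : f ≠ ⊥) :
    1 ≤ ((dvs K f).card : ℝ) := by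
  have hfin : {e : Ideal (𝓞 K) | f ≤ e}.Finite := by
    refine (Ideal.finite_setOf_absNorm_le (Ideal.absNorm f)).subset ?_
    intro e he
    have h1 : Ideal.absNorm e ∣ Ideal.absNorm f := Ideal.absNorm_dvd_absNorm_of_le he
    have h2 : 0 < Ideal.absNorm f := by
      have : Ideal.absNorm f ≠ 0 := by rwa [Ne, Ideal.absNorm_eq_zero_iff]
      omega
    exact Nat.le_of_dvd h2 h1
  have : f ∈ dvs K f := by
    unfold dvs
    rw [dif_pos hfin]
    simp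
  exact_mod_cast Finset.card_pos.mpr ⟨f, this⟩

private lemma sumB {K : Type} [Field K] [NumberField K] {f : Ideal (𝓞 K)} (hf : f ≠ ⊥) (L : FI K)
    (y : InfinitePlace K → ℝ) : ∑' x : K, B L y x ≤ 1 + ∑' x : K, E f L y 0 x := by
  have h : ∀ x : K, B L y x ≤ dl x 0 * 1 + E f L y 0 x := by
    intro x
    by_cases hx0 : x = 0
    · rw [hx0, dl_self, mul_one]
      refine le_trans ?_ le_self_add
      unfold B
      split_ifs <;> simp
    · by_cases hB : Bo L y x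
      · refine le_trans ?_ le_add_self
        rw [B_of hB.1 hB.2, E_of hB.1 hx0 hB.2, neg_zero, Real.rpow_zero, mul_one]
        rw [← ENNReal.ofReal_one]
        exact ENNReal.ofReal_le_ofReal (wf_one_le hf L x)
      · unfold B
        rw [if_neg hB]
        exact zero_le
  calc ∑' x : K, B L y x ≤ ∑' x : K, (dl x 0 * 1 + E f L y 0 x) := ENNReal.tsum_le_tsum h
    _ = 1 + ∑' x : K, E f L y 0 x := by
      rw [ENNReal.tsum_add]
      congr 1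
      exact tsum_dl (0 : K) (fun _ => 1)

private lemma final {N Q ε D C b t x : ℝ} (hN : 1 ≤ N) (hQ : 1 ≤ Q) (hε : 0 < ε) (hD : 1 ≤ D)
    (hC : 1 ≤ C) (hb : 0 < b) (ht : t = 0 ∨ (1 ≤ b ∧ t = b)) (hx : x = C * D * t) :
    3 * N * (1 + x) + 4 * Q ^ (-(1 / 2) : ℝ) * ((1 + x) * x) +
      (N / Q) ^ (1 / 2 : ℝ) * Q ^ ε * x ^ 3 +
        2 * ((N / Q) ^ (1 / 2 : ℝ) * Q ^ ε * b ^ (1 / 2 : ℝ)) * x ^ 2 ≤
      14 * C ^ 3 * D ^ 3 * (N * (1 + b) + (N / Q) ^ (1 / 2 : ℝ) * Q ^ ε * b ^ 3) := by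
  have hQ0 : 0 < Q := by linarith
  have hN0 : 0 < N := by linarith
  set R := (N / Q) ^ (1 / 2 : ℝ) * Q ^ ε with hR
  have hR0 : 0 < R := by positivity
  have hC3 : 1 ≤ C ^ 3 := one_le_pow₀ hC
  have hD3 : 1 ≤ D ^ 3 := one_le_pow₀ hD
  have hCD : 1 ≤ C ^ 3 * D ^ 3 := one_le_mul_of_one_le_of_one_le hC3 hD3
  rcases ht with ht | ⟨hb1, ht⟩
  · rw [ht, mul_zero] at hx
    rw [hx]
    have h1 : 0 ≤ N * b := by positivity
    have h2 : 0 ≤ R * b ^ 3 := by positivity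
    calc 3 * N * (1 + 0) + 4 * Q ^ (-(1 / 2) : ℝ) * ((1 + 0) * 0) + R * 0 ^ 3 +
        2 * (R * b ^ (1 / 2 : ℝ)) * 0 ^ 2 = 3 * N := by ring
      _ ≤ 14 * 1 * (N * (1 + b) + R * b ^ 3) := by nlinarith
      _ ≤ 14 * (C ^ 3 * D ^ 3) * (N * (1 + b) + R * b ^ 3) := by gcongr
      _ = _ := by ring
  · rw [ht] at hx
    have hQR : Q ^ (-(1 / 2) : ℝ) ≤ R := by
      rw [hR, Real.div_rpow hN0.le hQ0.le, Real.rpow_neg hQ0.le]
      have h1 : 1 ≤ N ^ (1 / 2 : ℝ) := Real.one_le_rpow hN (by norm_num)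
      have h2 : 1 ≤ Q ^ ε := Real.one_le_rpow hQ hε.le
      have h3 : 0 < Q ^ (1 / 2 : ℝ) := by positivity
      calc (Q ^ (1 / 2 : ℝ))⁻¹ = 1 / Q ^ (1 / 2 : ℝ) * 1 := by
            rw [mul_one]; exact (one_div _).symm
        _ ≤ N ^ (1 / 2 : ℝ) / Q ^ (1 / 2 : ℝ) * Q ^ ε := by gcongr
    have hCD1 : 1 ≤ C * D := one_le_mul_of_one_le_of_one_le hC hD
    have hx1 : 1 ≤ x := by
      rw [hx]; exact one_le_mul_of_one_le_of_one_le hCD1 hb1
    have hbh : b ^ (1 / 2 : ℝ) ≤ b := by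
      calc b ^ (1 / 2 : ℝ) ≤ b ^ (1 : ℝ) := Real.rpow_le_rpow_of_exponent_le hb1 (by norm_num)
        _ = b := Real.rpow_one b
    have hx3 : x ^ 3 = C ^ 3 * D ^ 3 * b ^ 3 := by rw [hx]; ring
    have t1 : 3 * N * (1 + x) ≤ 3 * (C ^ 3 * D ^ 3) * (N * (1 + b)) := by
      have h1 : 1 + x ≤ C ^ 3 * D ^ 3 * (1 + b) := by
        have h2 : C * D ≤ C ^ 3 * D ^ 3 := by
          have : C ^ 3 * D ^ 3 = (C * D) * (C * D) ^ 2 := by ring
          rw [this]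
          nlinarith [one_le_pow₀ hCD1 (n := 2)]
        rw [hx]
        nlinarith
      calc 3 * N * (1 + x) ≤ 3 * N * (C ^ 3 * D ^ 3 * (1 + b)) := by gcongr
        _ = _ := by ring
    have t2 : 4 * Q ^ (-(1 / 2) : ℝ) * ((1 + x) * x) ≤ 8 * R * x ^ 3 := by
      calc 4 * Q ^ (-(1 / 2) : ℝ) * ((1 + x) * x) ≤ 4 * R * ((x + x) * (x * x)) := by
            have : (1 + x) * x ≤ (x + x) * (x * x) := by nlinarith
            gcongr
        _ = _ := by ring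
    have t3 : 2 * (R * b ^ (1 / 2 : ℝ)) * x ^ 2 ≤ 2 * R * x ^ 3 := by
      have : b ≤ x := by rw [hx]; nlinarith
      calc 2 * (R * b ^ (1 / 2 : ℝ)) * x ^ 2 ≤ 2 * (R * x) * x ^ 2 := by
            gcongr
            exact hbh.trans this
        _ = _ := by ring
    have h0 : 0 ≤ (C ^ 3 * D ^ 3) * (N * (1 + b)) := by positivity
    have h0' : 0 ≤ R * (C ^ 3 * D ^ 3 * b ^ 3) := by positivity
    rw [hx3] at t2 t3 ⊢
    nlinarith

theorem pf_M_C (hNV : K_NV) (_hNB : K_NB) (hGS : K_GS) (hK4 : K_K4) : M_C := by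
  classical
  intro n hn ε hε hε8
  obtain ⟨C0, hC0, h0⟩ := hGS n hn 0 le_rfl (by norm_num)
  obtain ⟨Ch, hCh, hh⟩ := hGS n hn (1 / 2) (by norm_num) (by norm_num)
  obtain ⟨C1, hC1, h1⟩ := hGS n hn (1 / 2 + 2 * ε) (by linarith) (by linarith)
  set C := max C0 (max Ch C1) with hC
  have hCC0 : C0 ≤ C := le_max_left _ _
  have hCCh : Ch ≤ C := (le_max_left _ _).trans (le_max_right _ _)
  have hCC1 : C1 ≤ C := (le_max_right _ _).trans (le_max_right _ _)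
  have hC1' : 1 ≤ C := hC0.trans hCC0
  refine ⟨14 * C ^ 3, by nlinarith [one_le_pow₀ hC1' (n := 3)], ?_⟩
  intro K _ _ hK f L y Q U hf hL hQ hU
  obtain ⟨hbt, hid, h1nv, hneg, -, -⟩ := hNV K L y hL
  have hD := card_dvs hf
  set D := ((dvs K f).card : ℝ) with hDdef
  have hN := nf_one_le hf
  set b := bt L y with hb
  obtain ⟨t, ht, htE⟩ : ∃ t : ℝ, (t = 0 ∨ (1 ≤ b ∧ t = b)) ∧
      ((b < 1 → ∀ κ : ℝ, ∀ x : K, E f L y κ x = 0) → True) ∧ (b < 1 → t = 0) ∧ (1 ≤ b → t = b) := by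
    by_cases h : b < 1
    · exact ⟨0, Or.inl rfl, fun _ => trivial, fun _ => rfl, fun h' => absurd h (by linarith)⟩
    · exact ⟨b, Or.inr ⟨not_lt.mp h, rfl⟩, fun _ => trivial, fun h' => absurd h' h, fun _ => rfl⟩
  have ht0 : 0 ≤ t := by
    rcases ht with h | h
    · rw [h]
    · rw [h.2]; exact hbt.le
  have hE0 : b < 1 → ∀ κ : ℝ, ∑' x : K, E f L y κ x = 0 := by
    intro hb1 κ
    rw [ENNReal.tsum_eq_zero]
    intro x
    unfold E
    rw [if_neg]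
    rintro ⟨hx, hx0, H⟩
    have h2 := h1nv x hx hx0
    have h3 := nv_le_one H
    have h4 : 0 ≤ nv y x := nv_nonneg x
    nlinarith
  have gen : ∀ κ Cκ : ℝ, Cκ ≤ C → 0 ≤ Cκ →
      ∑' x : K, E f L y κ x ≤ ENNReal.ofReal (Cκ * D * b) →
      ∑' x : K, E f L y κ x ≤ ENNReal.ofReal (C * D * t) := by
    intro κ Cκ hκ hκ0 h
    by_cases hb1 : b < 1
    · rw [hE0 hb1 κ]
      exact zero_le
    · rw [htE.2.2 (not_lt.mp hb1)]
      refine h.trans (ENNReal.ofReal_le_ofReal ?_)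
      gcongr
  have E0 := gen 0 C0 hCC0 (by linarith) (h0 K hK f L y hf hL)
  have Eh := gen (1 / 2) Ch hCCh (by linarith) (hh K hK f L y hf hL)
  have E1 := gen (1 / 2 + 2 * ε) C1 hCC1 (by linarith) (h1 K hK f L y hf hL)
  set x := C * D * t with hx
  have hx0 : 0 ≤ x := by positivity
  have hB : ∑' p : K, B L y p ≤ ENNReal.ofReal (1 + x) := by
    rw [ENNReal.ofReal_add zero_le_one hx0, ENNReal.ofReal_one]
    exact (sumB hf L y).trans (by gcongr)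
  have hw : ∏ i : Fin 6, (∑' g : K, w6 f L y ε i g ^ 2) ^ (1 / 2 : ℝ) ≤
      ENNReal.ofReal x ^ 3 := by
    have a0 : ∑' g : K, w6 f L y ε 0 g ^ 2 ≤ ENNReal.ofReal x :=
      (ENNReal.tsum_le_tsum (fun g => W0_sq hf g)).trans E0
    have a5 : ∑' g : K, w6 f L y ε 5 g ^ 2 ≤ ENNReal.ofReal x :=
      (ENNReal.tsum_le_tsum (fun g => W0_sq hf g)).trans E0
    have a1 : ∑' g : K, w6 f L y ε 1 g ^ 2 ≤ ENNReal.ofReal x :=
      (ENNReal.tsum_le_tsum (fun g => W1_sq g)).trans E1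
    have a2 : ∑' g : K, w6 f L y ε 2 g ^ 2 ≤ ENNReal.ofReal x :=
      (ENNReal.tsum_le_tsum (fun g => W1_sq g)).trans E1
    have a3 : ∑' g : K, w6 f L y ε 3 g ^ 2 ≤ ENNReal.ofReal x :=
      (ENNReal.tsum_le_tsum (fun g => W1_sq g)).trans E1
    have a4 : ∑' g : K, w6 f L y ε 4 g ^ 2 ≤ ENNReal.ofReal x :=
      (ENNReal.tsum_le_tsum (fun g => W1_sq g)).trans E1
    rw [Fin.prod_univ_six]
    calc _ ≤ ENNReal.ofReal x ^ (1 / 2 : ℝ) * ENNReal.ofReal x ^ (1 / 2 : ℝ) *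
          ENNReal.ofReal x ^ (1 / 2 : ℝ) * ENNReal.ofReal x ^ (1 / 2 : ℝ) *
          ENNReal.ofReal x ^ (1 / 2 : ℝ) * ENNReal.ofReal x ^ (1 / 2 : ℝ) := by gcongr
      _ = ((ENNReal.ofReal x ^ (1 / 2 : ℝ)) ^ 2) ^ 3 := by ring
      _ = _ := by
        congr 1
        rw [← ENNReal.rpow_natCast, ← ENNReal.rpow_mul]
        norm_num
  have hQ0 : 0 < Q := by linarith
  have hN0 : 0 < Nf K f := by linarith
  have step : ∑' p : {x : K // x ∈ L}, ∑' q : {x : K // x ∈ L}, ∑' s : {x : K // x ∈ L},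
      (if ∀ v, ‖sy y p.1 v‖ ≤ 1 / 4 ∧ ‖sy y q.1 v‖ ≤ 1 / 4 ∧ ‖sy y s.1 v‖ ≤ 1 / 4 then
        ENNReal.ofReal (U (qd p.1 q.1 s.1)) else 0) ≤
      ∑' p : K, ∑' q : K, ∑' s : K, F L y f ε (ENNReal.ofReal (Nf K f))
      (ENNReal.ofReal (Q ^ (-(1 / 2) : ℝ)))
      (ENNReal.ofReal ((Nf K f / Q) ^ (1 / 2 : ℝ) * Q ^ ε))
      (ENNReal.ofReal ((Nf K f / Q) ^ (1 / 2 : ℝ) * Q ^ ε * b ^ (1 / 2 : ℝ)))
      (w6 f L y ε) p q s := by
    refine le_trans (ENNReal.tsum_le_tsum fun p => ENNReal.tsum_le_tsum fun q =>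
      ENNReal.tsum_le_tsum (g := fun s : {x : K // x ∈ L} =>
        F L y f ε (ENNReal.ofReal (Nf K f)) (ENNReal.ofReal (Q ^ (-(1 / 2) : ℝ)))
        (ENNReal.ofReal ((Nf K f / Q) ^ (1 / 2 : ℝ) * Q ^ ε))
        (ENNReal.ofReal ((Nf K f / Q) ^ (1 / 2 : ℝ) * Q ^ ε * b ^ (1 / 2 : ℝ)))
        (w6 f L y ε) p.1 q.1 s.1) fun s => ?_) ?_
    · split_ifs with H
      · exact point hNV K ε f L y Q U hf hL hQ hU p.1 q.1 s.1 p.2 q.2 s.2 (fun v => (H v).1)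
          (fun v => (H v).2.1) (fun v => (H v).2.2)
      · exact zero_le
    · refine le_trans (ENNReal.tsum_le_tsum fun p => ENNReal.tsum_le_tsum fun q =>
        ENNReal.tsum_comp_le_tsum_of_injective Subtype.val_injective
          (fun s => F L y f ε (ENNReal.ofReal (Nf K f)) (ENNReal.ofReal (Q ^ (-(1 / 2) : ℝ)))
        (ENNReal.ofReal ((Nf K f / Q) ^ (1 / 2 : ℝ) * Q ^ ε))
        (ENNReal.ofReal ((Nf K f / Q) ^ (1 / 2 : ℝ) * Q ^ ε * b ^ (1 / 2 : ℝ)))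
        (w6 f L y ε) p.1 q.1 s)) ?_
      refine le_trans (ENNReal.tsum_le_tsum fun p =>
        ENNReal.tsum_comp_le_tsum_of_injective Subtype.val_injective
          (fun q => ∑' s : K, F L y f ε (ENNReal.ofReal (Nf K f))
        (ENNReal.ofReal (Q ^ (-(1 / 2) : ℝ)))
        (ENNReal.ofReal ((Nf K f / Q) ^ (1 / 2 : ℝ) * Q ^ ε))
        (ENNReal.ofReal ((Nf K f / Q) ^ (1 / 2 : ℝ) * Q ^ ε * b ^ (1 / 2 : ℝ)))
        (w6 f L y ε) p.1 q s)) ?_
      exact ENNReal.tsum_comp_le_tsum_of_injective Subtype.val_injective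
          (fun p => ∑' q : K, ∑' s : K, F L y f ε (ENNReal.ofReal (Nf K f))
        (ENNReal.ofReal (Q ^ (-(1 / 2) : ℝ)))
        (ENNReal.ofReal ((Nf K f / Q) ^ (1 / 2 : ℝ) * Q ^ ε))
        (ENNReal.ofReal ((Nf K f / Q) ^ (1 / 2 : ℝ) * Q ^ ε * b ^ (1 / 2 : ℝ)))
        (w6 f L y ε) p q s)
  refine step.trans ((sumF hK4 ε _ _ _ _ _).trans ?_)
  have hfin := final (N := Nf K f) (Q := Q) (ε := ε) (D := D) (C := C) (b := b) (t := t) (x := x)
    hN hQ hε hD hC1' hbt ht hx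
  refine le_trans ?_ (ENNReal.ofReal_le_ofReal hfin)
  rw [ENNReal.ofReal_add (by positivity) (by positivity),
    ENNReal.ofReal_add (by positivity) (by positivity),
    ENNReal.ofReal_add (by positivity) (by positivity)]
  have e3 : (3 : ℝ≥0∞) = ENNReal.ofReal 3 := by simp
  have e4 : (4 : ℝ≥0∞) = ENNReal.ofReal 4 := by simp
  have e2 : (2 : ℝ≥0∞) = ENNReal.ofReal 2 := by simp
  gcongr
  · rw [ENNReal.ofReal_mul (by positivity), ENNReal.ofReal_mul (by positivity), e3]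
    gcongr
  · rw [ENNReal.ofReal_mul (by positivity), ENNReal.ofReal_mul (by positivity),
      ENNReal.ofReal_mul (by positivity), e4]
    gcongr
  · rw [ENNReal.ofReal_mul (p := (Nf K f / Q) ^ (1 / 2 : ℝ) * Q ^ ε) (q := x ^ 3)
      (by positivity), ENNReal.ofReal_pow hx0]
    gcongr
  · rw [ENNReal.ofReal_mul (p := 2 * ((Nf K f / Q) ^ (1 / 2 : ℝ) * Q ^ ε * b ^ (1 / 2 : ℝ)))
      (q := x ^ 2) (by positivity), ENNReal.ofReal_mul (p := 2) (by positivity),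
      ENNReal.ofReal_pow hx0, e2]
    gcongr

end Pool.Agent.H18.BH
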