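import Pool.Agent.H29.BH.Targets2

/-!
# The sum over the quadruples
-/

set_option autoImplicit false

open NumberField NumberField.InfinitePlace MeasureTheory
open scoped nonZeroDivisors ENNReal

namespace Pool.Agent.H18.BH.MC

open Pool.Agent.H29.BH Pool.Agent.H23.LB Pool.Agent.H25.HK
open Pool.Agent.H28.RC (idl)
open Pool.Agent.H29.TC (dvs)

section

variable {K : Type} [Field K] [NumberField K]

lemma nf_one_le {I : Ideal (𝓞 K)} (h : I ≠ ⊥) : 1 ≤ Nf K I := by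
  unfold Nf
  have : Ideal.absNorm I ≠ 0 := by rwa [Ne, Ideal.absNorm_eq_zero_iff]
  exact_mod_cast Nat.one_le_iff_ne_zero.mpr this

lemma nf_mono {I J : Ideal (𝓞 K)} (hI : I ≠ ⊥) (h : I ≤ J) : Nf K J ≤ Nf K I := by
  unfold Nf
  have h1 : Ideal.absNorm J ∣ Ideal.absNorm I := Ideal.absNorm_dvd_absNorm_of_le h
  have h2 : 0 < Ideal.absNorm I := by
    have : Ideal.absNorm I ≠ 0 := by rwa [Ne, Ideal.absNorm_eq_zero_iff]
    omega
  exact_mod_cast Nat.le_of_dvd h2 h1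

lemma sy_sub (y : InfinitePlace K → ℝ) (a b : K) (v : InfinitePlace K) :
    sy y (a - b) v = sy y a v - sy y b v := by
  simp [sy, map_sub, sub_mul]

lemma sy_zero (y : InfinitePlace K → ℝ) (v : InfinitePlace K) : sy y (0 : K) v = 0 := by
  simp [sy]

lemma idl_neg (M : FI K) (x : K) : idl K M (-x) = idl K M x := by
  have h : FractionalIdeal.spanSingleton (𝓞 K)⁰ (-x) =
      FractionalIdeal.spanSingleton (𝓞 K)⁰ x := by
    ext z
    rw [FractionalIdeal.mem_spanSingleton, FractionalIdeal.mem_spanSingleton]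
    constructor
    · rintro ⟨a, rfl⟩
      exact ⟨-a, by simp⟩
    · rintro ⟨a, rfl⟩
      exact ⟨-a, by simp⟩
  unfold idl
  rw [h]

lemma wf_neg (f : Ideal (𝓞 K)) (M : FI K) (x : K) : wf K f M (-x) = wf K f M x := by
  unfold wf
  rw [idl_neg]

lemma sup_ne {f : Ideal (𝓞 K)} (hf : f ≠ ⊥) (I : Ideal (𝓞 K)) : f ⊔ I ≠ ⊥ :=
  fun h => hf (le_bot_iff.mp (h ▸ le_sup_left))

lemma wf_one_le {f : Ideal (𝓞 K)} (hf : f ≠ ⊥) (M : FI K) (x : K) : 1 ≤ wf K f M x :=
  nf_one_le (sup_ne hf _)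

variable (f : Ideal (𝓞 K)) (L : FI K) (y : InfinitePlace K → ℝ)

/-- the box -/
def Bo (x : K) : Prop := x ∈ L ∧ ∀ v : InfinitePlace K, ‖sy y x v‖ ≤ 1

open scoped Classical in
/-- the indicator function of the box -/
noncomputable def B (x : K) : ℝ≥0∞ := if Bo L y x then 1 else 0

open scoped Classical in
/-- the weights -/
noncomputable def E (κ : ℝ) (h : K) : ℝ≥0∞ :=
  if h ∈ L ∧ h ≠ 0 ∧ ∀ v, ‖sy y h v‖ ≤ 1 then
    ENNReal.ofReal (wf K f L h * nv y h ^ (-κ)) else 0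

open scoped Classical in
/-- a function on the nonzero points of the box -/
noncomputable def W (g : K → ℝ) (h : K) : ℝ≥0∞ :=
  if h ∈ L ∧ h ≠ 0 ∧ ∀ v, ‖sy y h v‖ ≤ 1 then ENNReal.ofReal (g h) else 0

open scoped Classical in
/-- the diagonal -/
noncomputable def dl (a b : K) : ℝ≥0∞ := if a = b then 1 else 0

variable {f L y}

lemma tsum_dl (a : K) (F : K → ℝ≥0∞) : ∑' x : K, dl x a * F x = F a := by
  classical
  rw [tsum_eq_single a]
  · simp [dl]
  · intro b hb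
    simp [dl, hb]

lemma nv_nonneg (h : K) : 0 ≤ nv y h := Finset.prod_nonneg fun _ _ => by positivity

lemma nv_le_one {h : K} (H : ∀ v, ‖sy y h v‖ ≤ 1) : nv y h ≤ 1 := by
  unfold nv
  exact Finset.prod_le_one (fun _ _ => by positivity)
    (fun v _ => pow_le_one₀ (norm_nonneg _) (H v))

lemma box_sub {a b : K} (ha : a ∈ L) (hb : b ∈ L) (ha' : ∀ v, ‖sy y a v‖ ≤ 1 / 4)
    (hb' : ∀ v, ‖sy y b v‖ ≤ 1 / 4) : a - b ∈ L ∧ ∀ v, ‖sy y (a - b) v‖ ≤ 1 := by
  refine ⟨(L : Submodule (𝓞 K) K).sub_mem ha hb, fun v => ?_⟩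
  rw [sy_sub]
  have := norm_sub_le (sy y a v) (sy y b v)
  have := ha' v
  have := hb' v
  linarith

/-! ### The ten sums -/

variable (N q r t : ℝ≥0∞) (G1 G2 G3 G4 : K → ℝ≥0∞)

lemma s1 (g : K → ℝ≥0∞) : ∑' p : K, ∑' q : K, ∑' s : K, dl q 0 * (dl s p * g p) = ∑' p, g p := by
  have : ∀ p q : K, ∑' s : K, dl q 0 * (dl s p * g p) = dl q 0 * g p := by
    intro p q
    rw [ENNReal.tsum_mul_left, tsum_dl p (fun _ => g p)]
  simp only [this]
  have h2 : ∀ p : K, ∑' q : K, dl q 0 * g p = g p := fun p => tsum_dl 0 (fun _ => g p)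
  simp only [h2]

lemma s2 (g : K → ℝ≥0∞) : ∑' p : K, ∑' q : K, ∑' s : K, dl s 0 * (dl q p * g p) = ∑' p, g p := by
  have : ∀ p q : K, ∑' s : K, dl s 0 * (dl q p * g p) = dl q p * g p :=
    fun p q => tsum_dl 0 (fun _ => dl q p * g p)
  simp only [this]
  have h2 : ∀ p : K, ∑' q : K, dl q p * g p = g p := fun p => tsum_dl p (fun _ => g p)
  simp only [h2]

lemma s3 (g : K → ℝ≥0∞) : ∑' p : K, ∑' q : K, ∑' s : K, dl p 0 * (dl s q * g q) = ∑' p, g p := by
  have : ∀ p q : K, ∑' s : K, dl p 0 * (dl s q * g q) = dl p 0 * g q := by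
    intro p q
    rw [ENNReal.tsum_mul_left, tsum_dl q (fun _ => g q)]
  simp only [this, ENNReal.tsum_mul_left]
  exact tsum_dl 0 (fun _ => ∑' q, g q)

lemma conv (g h : K → ℝ≥0∞) : ∑' p : K, ∑' s : K, g s * h (p - s) = (∑' s, g s) * ∑' p, h p := by
  rw [ENNReal.tsum_comm]
  have : ∀ s, ∑' p, g s * h (p - s) = g s * ∑' p, h p := by
    intro s
    rw [ENNReal.tsum_mul_left]
    congr 1
    exact (Equiv.subRight s).tsum_eq h
  simp only [this, ENNReal.tsum_mul_right]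

lemma s4 (g h : K → ℝ≥0∞) : ∑' p : K, ∑' q : K, ∑' s : K, dl q 0 * (g s * h (p - s)) =
    (∑' s, g s) * ∑' p, h p := by
  have : ∀ p q : K, ∑' s : K, dl q 0 * (g s * h (p - s)) = dl q 0 * ∑' s, g s * h (p - s) :=
    fun p q => ENNReal.tsum_mul_left
  simp only [this]
  have h2 : ∀ p : K, ∑' q : K, dl q 0 * ∑' s, g s * h (p - s) = ∑' s, g s * h (p - s) :=
    fun p => tsum_dl 0 (fun _ => ∑' s, g s * h (p - s))
  simp only [h2]
  exact conv g h

lemma s5 (g h : K → ℝ≥0∞) : ∑' p : K, ∑' q : K, ∑' s : K, dl s 0 * (g q * h (p - q)) =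
    (∑' s, g s) * ∑' p, h p := by
  have : ∀ p q : K, ∑' s : K, dl s 0 * (g q * h (p - q)) = g q * h (p - q) :=
    fun p q => tsum_dl 0 (fun _ => g q * h (p - q))
  simp only [this]
  exact conv g h

lemma s6 (g h : K → ℝ≥0∞) : ∑' p : K, ∑' q : K, ∑' s : K, dl q p * (g p * h s) =
    (∑' s, g s) * ∑' p, h p := by
  have : ∀ p q : K, ∑' s : K, dl q p * (g p * h s) = dl q p * (g p * ∑' s, h s) := by
    intro p q
    rw [ENNReal.tsum_mul_left, ENNReal.tsum_mul_left]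
  simp only [this]
  have h2 : ∀ p : K, ∑' q : K, dl q p * (g p * ∑' s, h s) = g p * ∑' s, h s :=
    fun p => tsum_dl p (fun _ => g p * ∑' s, h s)
  simp only [h2, ENNReal.tsum_mul_right]

lemma s7 (g h : K → ℝ≥0∞) : ∑' p : K, ∑' q : K, ∑' s : K, dl s p * (g p * h q) =
    (∑' s, g s) * ∑' p, h p := by
  have : ∀ p q : K, ∑' s : K, dl s p * (g p * h q) = g p * h q :=
    fun p q => tsum_dl p (fun _ => g p * h q)
  simp only [this, ENNReal.tsum_mul_left, ENNReal.tsum_mul_right]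

lemma s8 (g h : K → ℝ≥0∞) : ∑' p : K, ∑' q : K, ∑' s : K, dl p 0 * (g q * h s) =
    (∑' s, g s) * ∑' p, h p := by
  have : ∀ p q : K, ∑' s : K, dl p 0 * (g q * h s) = dl p 0 * (g q * ∑' s, h s) := by
    intro p q
    rw [ENNReal.tsum_mul_left, ENNReal.tsum_mul_left]
  simp only [this]
  have h2 : ∀ p : K, ∑' q : K, dl p 0 * (g q * ∑' s, h s) =
      dl p 0 * ((∑' q, g q) * ∑' s, h s) := by
    intro p
    rw [ENNReal.tsum_mul_left, ENNReal.tsum_mul_right]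
  simp only [h2]
  exact tsum_dl (0 : K) (fun _ => (∑' q, g q) * ∑' s, h s)

lemma s9 (g h : K → ℝ≥0∞) : ∑' p : K, ∑' q : K, ∑' s : K, dl s q * (g q * h (p - q)) =
    (∑' s, g s) * ∑' p, h p := by
  have : ∀ p q : K, ∑' s : K, dl s q * (g q * h (p - q)) = g q * h (p - q) :=
    fun p q => tsum_dl q (fun _ => g q * h (p - q))
  simp only [this]
  exact conv g h

/-! ### The bounds of the terms -/

/-- the ten functions -/
noncomputable def F (L : FI K) (y : InfinitePlace K → ℝ) (f : Ideal (𝓞 K)) (ε : ℝ) (N q R r : ℝ≥0∞)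
    (w : Fin 6 → K → ℝ≥0∞) (p q' s : K) : ℝ≥0∞ :=
  N * (dl q' 0 * (dl s p * B L y p)) + (N * (dl s 0 * (dl q' p * B L y p)) +
  (N * (dl p 0 * (dl s q' * B L y q')) + (q * (dl q' 0 * (B L y s * E f L y (1 / 2) (p - s))) +
  (q * (dl s 0 * (B L y q' * E f L y (1 / 2) (p - q'))) +
  (q * (dl q' p * (B L y p * E f L y (1 / 2) s)) +
  (q * (dl s p * (B L y p * E f L y (1 / 2) q')) +
  (R * (w 0 p * w 1 q' * w 2 s * w 3 (p - q') * w 4 (p - s) * w 5 (q' - s)) +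
  (r * (dl p 0 * (E f L y (1 / 2 + 2 * ε) q' * E f L y (1 / 2 + 2 * ε) s)) +
  r * (dl s q' * (E f L y (1 / 2 + 2 * ε) q' * E f L y (1 / 2 + 2 * ε) (p - q')))))))))))

lemma sumF (hK4 : K_K4) (ε : ℝ) (N q R r : ℝ≥0∞) (w : Fin 6 → K → ℝ≥0∞) :
    ∑' p : K, ∑' q' : K, ∑' s : K, F L y f ε N q R r w p q' s ≤
      3 * N * (∑' p, B L y p) + 4 * q * ((∑' p, B L y p) * ∑' p, E f L y (1 / 2) p) +
        R * (∏ i : Fin 6, (∑' g : K, w i g ^ 2) ^ (1 / 2 : ℝ)) +
        2 * r * (∑' p, E f L y (1 / 2 + 2 * ε) p) ^ 2 := by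
  simp only [F, ENNReal.tsum_add, ENNReal.tsum_mul_left (a := N), ENNReal.tsum_mul_left (a := q),
    ENNReal.tsum_mul_left (a := R), ENNReal.tsum_mul_left (a := r), s1, s2, s3, s4, s5, s6, s7, s8,
    s9]
  have h := hK4 K w
  calc _ ≤ N * (∑' p, B L y p) + (N * (∑' p, B L y p) + (N * (∑' p, B L y p) +
      (q * ((∑' p, B L y p) * ∑' p, E f L y (1 / 2) p) +
      (q * ((∑' p, B L y p) * ∑' p, E f L y (1 / 2) p) +
      (q * ((∑' p, B L y p) * ∑' p, E f L y (1 / 2) p) +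
      (q * ((∑' p, B L y p) * ∑' p, E f L y (1 / 2) p) +
      (R * (∏ i : Fin 6, (∑' g : K, w i g ^ 2) ^ (1 / 2 : ℝ)) +
      (r * ((∑' p, E f L y (1 / 2 + 2 * ε) p) * ∑' p, E f L y (1 / 2 + 2 * ε) p) +
      r * ((∑' p, E f L y (1 / 2 + 2 * ε) p) * ∑' p, E f L y (1 / 2 + 2 * ε) p))))))))) := by
        gcongr
    _ = _ := by ring

section
variable {ε : ℝ} {N q R r : ℝ≥0∞} {w : Fin 6 → K → ℝ≥0∞} {p q' s : K}

lemma F1 : N * (dl q' 0 * (dl s p * B L y p)) ≤ F L y f ε N q R r w p q' s := le_self_add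
lemma F2 : N * (dl s 0 * (dl q' p * B L y p)) ≤ F L y f ε N q R r w p q' s :=
  le_add_left le_self_add
lemma F3 : N * (dl p 0 * (dl s q' * B L y q')) ≤ F L y f ε N q R r w p q' s :=
  le_add_left (le_add_left le_self_add)
lemma F4 : q * (dl q' 0 * (B L y s * E f L y (1 / 2) (p - s))) ≤
    F L y f ε N q R r w p q' s := le_add_left (le_add_left (le_add_left le_self_add))
lemma F5 : q * (dl s 0 * (B L y q' * E f L y (1 / 2) (p - q'))) ≤
    F L y f ε N q R r w p q' s :=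
  le_add_left (le_add_left (le_add_left (le_add_left le_self_add)))
lemma F6 : q * (dl q' p * (B L y p * E f L y (1 / 2) s)) ≤ F L y f ε N q R r w p q' s :=
  le_add_left (le_add_left (le_add_left (le_add_left (le_add_left le_self_add))))
lemma F7 : q * (dl s p * (B L y p * E f L y (1 / 2) q')) ≤ F L y f ε N q R r w p q' s :=
  le_add_left (le_add_left (le_add_left (le_add_left (le_add_left (le_add_left le_self_add)))))
lemma F8 : R * (w 0 p * w 1 q' * w 2 s * w 3 (p - q') * w 4 (p - s) * w 5 (q' - s)) ≤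
    F L y f ε N q R r w p q' s :=
  le_add_left (le_add_left (le_add_left (le_add_left (le_add_left (le_add_left (le_add_left
    le_self_add))))))
lemma F9 : r * (dl p 0 * (E f L y (1 / 2 + 2 * ε) q' * E f L y (1 / 2 + 2 * ε) s)) ≤
    F L y f ε N q R r w p q' s :=
  le_add_left (le_add_left (le_add_left (le_add_left (le_add_left (le_add_left (le_add_left
    (le_add_left le_self_add)))))))
lemma F10 : r * (dl s q' * (E f L y (1 / 2 + 2 * ε) q' * E f L y (1 / 2 + 2 * ε) (p - q'))) ≤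
    F L y f ε N q R r w p q' s :=
  le_add_left (le_add_left (le_add_left (le_add_left (le_add_left (le_add_left (le_add_left
    (le_add_left le_add_self)))))))

end

lemma dl_self (a : K) : dl a a = 1 := by simp [dl]

lemma B_of {x : K} (hx : x ∈ L) (h : ∀ v, ‖sy y x v‖ ≤ 1) : B L y x = 1 := by
  simp only [B, Bo]
  rw [if_pos ⟨hx, h⟩]

lemma E_of {κ : ℝ} {x : K} (hx : x ∈ L) (h0 : x ≠ 0) (h : ∀ v, ‖sy y x v‖ ≤ 1) :
    E f L y κ x = ENNReal.ofReal (wf K f L x * nv y x ^ (-κ)) := by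
  simp only [E]
  rw [if_pos ⟨hx, h0, h⟩]

lemma W_of {g : K → ℝ} {x : K} (hx : x ∈ L) (h0 : x ≠ 0) (h : ∀ v, ‖sy y x v‖ ≤ 1) :
    W L y g x = ENNReal.ofReal (g x) := by
  simp only [W]
  rw [if_pos ⟨hx, h0, h⟩]

lemma W0_sq (hf : f ≠ ⊥) (x : K) :
    W L y (fun h => wf K f L h ^ (1 / 4 : ℝ)) x ^ 2 ≤ E f L y 0 x := by
  unfold W E
  split_ifs with h
  · rw [← ENNReal.ofReal_pow (by unfold wf Nf; positivity)]
    apply ENNReal.ofReal_le_ofReal
    have h1 := wf_one_le hf L x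
    have h0 : 0 ≤ wf K f L x := by linarith
    rw [neg_zero, Real.rpow_zero, mul_one, ← Real.rpow_natCast, ← Real.rpow_mul h0]
    calc wf K f L x ^ ((1 / 4 : ℝ) * ((2 : ℕ) : ℝ)) ≤ wf K f L x ^ (1 : ℝ) :=
          Real.rpow_le_rpow_of_exponent_le h1 (by norm_num)
      _ = _ := Real.rpow_one _
  · simp

lemma W1_sq {ε : ℝ} (x : K) :
    W L y (fun h => wf K f L h ^ (1 / 2 : ℝ) * nv y h ^ (-(1 / 4 + ε))) x ^ 2 ≤
      E f L y (1 / 2 + 2 * ε) x := by
  unfold W E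
  split_ifs with h
  · have h0 : 0 ≤ wf K f L x := by unfold wf Nf; positivity
    have h1 : 0 ≤ nv y x := nv_nonneg x
    rw [← ENNReal.ofReal_pow (by positivity)]
    apply ENNReal.ofReal_le_ofReal
    rw [mul_pow, ← Real.rpow_natCast, ← Real.rpow_natCast, ← Real.rpow_mul h0,
      ← Real.rpow_mul h1]
    apply le_of_eq
    congr 1
    · norm_num
    · congr 1
      push_cast
      ring
  · simp

end

end Pool.Agent.H18.BH.MC
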