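import Pool.Agent.H18.BH.M_CA

/-!
# The sum over the quadruples: the bounds of the terms
-/

set_option autoImplicit false

open NumberField NumberField.InfinitePlace MeasureTheory
open scoped nonZeroDivisors ENNReal

namespace Pool.Agent.H18.BH.MC

open Pool.Agent.H29.BH Pool.Agent.H23.LB Pool.Agent.H25.HK
open Pool.Agent.H28.RC (idl)
open Pool.Agent.H29.TC (dvs)

/-- the six weights -/
noncomputable def w6 {K : Type} [Field K] [NumberField K] (f : Ideal (𝓞 K)) (L : FI K)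
    (y : InfinitePlace K → ℝ) (ε : ℝ) : Fin 6 → K → ℝ≥0∞ :=
  ![W L y (fun h => wf K f L h ^ (1 / 4 : ℝ)),
    W L y (fun h => wf K f L h ^ (1 / 2 : ℝ) * nv y h ^ (-(1 / 4 + ε))),
    W L y (fun h => wf K f L h ^ (1 / 2 : ℝ) * nv y h ^ (-(1 / 4 + ε))),
    W L y (fun h => wf K f L h ^ (1 / 2 : ℝ) * nv y h ^ (-(1 / 4 + ε))),
    W L y (fun h => wf K f L h ^ (1 / 2 : ℝ) * nv y h ^ (-(1 / 4 + ε))),
    W L y (fun h => wf K f L h ^ (1 / 4 : ℝ))]

private lemma deg {a Q n : ℝ} (hQ : 1 ≤ Q) (hn : 0 ≤ n) (ha : 0 ≤ a) {U : ℝ}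
    (h : U ≤ a * (Q * n) ^ (-(1 / 2) : ℝ)) :
    ENNReal.ofReal U ≤ ENNReal.ofReal (Q ^ (-(1 / 2) : ℝ)) *
      ENNReal.ofReal (a * n ^ (-(1 / 2 : ℝ))) := by
  rw [← ENNReal.ofReal_mul (by positivity)]
  apply ENNReal.ofReal_le_ofReal
  refine h.trans (le_of_eq ?_)
  rw [Real.mul_rpow (by linarith) hn]
  ring

private lemma gen8 {R a b c d e g : ℝ} (hR : 0 ≤ R) (ha : 0 ≤ a) (hb : 0 ≤ b) (hc : 0 ≤ c)
    (hd : 0 ≤ d) (he : 0 ≤ e) :
    ENNReal.ofReal (R * (a * b * c * d * e * g)) = ENNReal.ofReal R *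
      (ENNReal.ofReal a * ENNReal.ofReal b * ENNReal.ofReal c * ENNReal.ofReal d *
        ENNReal.ofReal e * ENNReal.ofReal g) := by
  rw [ENNReal.ofReal_mul hR, ENNReal.ofReal_mul (by positivity), ENNReal.ofReal_mul (by positivity),
    ENNReal.ofReal_mul (by positivity), ENNReal.ofReal_mul (by positivity),
    ENNReal.ofReal_mul (by positivity)]

theorem point (hNV : K_NV) (K : Type) [Field K] [NumberField K] (ε : ℝ)
    (f : Ideal (𝓞 K)) (L : FI K) (y : InfinitePlace K → ℝ) (Q : ℝ) (U : (Fin 4 → K) → ℝ)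
    (hf : f ≠ ⊥) (hL : L ≠ 0) (hQ : 1 ≤ Q) (hU : Ub f L y ε Q U) (p q s : K)
    (hp : p ∈ L) (hq : q ∈ L) (hs : s ∈ L) (Hp : ∀ v, ‖sy y p v‖ ≤ 1 / 4)
    (Hq : ∀ v, ‖sy y q v‖ ≤ 1 / 4) (Hs : ∀ v, ‖sy y s v‖ ≤ 1 / 4) :
    ENNReal.ofReal (U (qd p q s)) ≤ F L y f ε (ENNReal.ofReal (Nf K f))
      (ENNReal.ofReal (Q ^ (-(1 / 2) : ℝ)))
      (ENNReal.ofReal ((Nf K f / Q) ^ (1 / 2 : ℝ) * Q ^ ε))
      (ENNReal.ofReal ((Nf K f / Q) ^ (1 / 2 : ℝ) * Q ^ ε * bt L y ^ (1 / 2 : ℝ)))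
      (w6 f L y ε) p q s := by
  obtain ⟨hbt, hid, h1nv, hneg, -, -⟩ := hNV K L y hL
  have hb : ∀ i, (qd p q s) i ∈ L := by
    intro i
    fin_cases i
    · exact (L : Submodule (𝓞 K) K).zero_mem
    · exact hp
    · exact hq
    · exact hs
  have hb0 : (qd p q s) 0 = 0 := rfl
  have e0 : (qd p q s) 0 = 0 := rfl
  have e1 : (qd p q s) 1 = p := rfl
  have e2 : (qd p q s) 2 = q := rfl
  have e3 : (qd p q s) 3 = s := rfl
  have L1 : ∀ {x : K}, (∀ v, ‖sy y x v‖ ≤ 1 / 4) → ∀ v, ‖sy y x v‖ ≤ 1 :=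
    fun h v => (h v).trans (by norm_num)
  have Hp1 := L1 Hp
  have Hq1 := L1 Hq
  have Hs1 := L1 Hs
  obtain ⟨mpq, Hpq⟩ := box_sub hp hq Hp Hq
  obtain ⟨mps, Hps⟩ := box_sub hp hs Hp Hs
  obtain ⟨mqs, Hqs⟩ := box_sub hq hs Hq Hs
  have hN1 := nf_one_le hf
  have wf0 : ∀ x : K, 0 ≤ wf K f L x := fun x => by unfold wf Nf; positivity
  have nv0 : ∀ x : K, 0 ≤ nv y x := nv_nonneg
  have nvne : ∀ x : K, x ∈ L → x ≠ 0 → nv y x ≠ 0 := by
    intro x hx hx0 h
    have := h1nv x hx hx0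
    rw [h] at this
    linarith
  have idne : ∀ x : K, x ∈ L → x ≠ 0 → idl K L x ≠ ⊥ := by
    intro x hx hx0 h
    have h1 := hid x hx
    have h2 := h1nv x hx hx0
    rw [h1, h] at h2
    unfold Nf at h2
    simp at h2
    linarith
  have idle : ∀ x : K, x ∈ L → x ≠ 0 → (∀ v, ‖sy y x v‖ ≤ 1) → Nf K (idl K L x) ≤ bt L y := by
    intro x hx hx0 h
    rw [← hid x hx]
    have := nv_le_one h
    nlinarith
  have hQ0 : 0 < Q := by linarith
  have hR : 0 ≤ (Nf K f / Q) ^ (1 / 2 : ℝ) * Q ^ ε := by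
    have : 0 ≤ Nf K f := by linarith
    positivity
  by_cases hq0 : q = 0
  · by_cases hps : s = p
    · refine le_trans ?_ F1
      subst hps; subst hq0
      rw [dl_self, dl_self, B_of hs Hs1]
      simp only [mul_one]
      exact ENNReal.ofReal_le_ofReal (hU.triv _ hb hb0)
    · refine le_trans ?_ F4
      have h := hU.d02 _ hb hb0 (by rw [e0, e2, hq0]) (by rw [e1, e3]; exact fun h => hps h.symm)
      rw [e1, e3] at h
      rw [hq0, dl_self, B_of hs Hs1, E_of mps (sub_ne_zero.mpr (fun h => hps h.symm)) Hps, one_mul,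
        one_mul]
      rw [hq0] at h
      exact deg hQ (nv0 _) (wf0 _) h
  by_cases hs0 : s = 0
  · by_cases hqp : q = p
    · refine le_trans ?_ F2
      subst hs0; subst hqp
      rw [dl_self, dl_self, B_of hp Hp1]
      simp only [mul_one]
      exact ENNReal.ofReal_le_ofReal (hU.triv _ hb hb0)
    · refine le_trans ?_ F5
      have h := hU.d03 _ hb hb0 (by rw [e0, e3, hs0]) (by rw [e1, e2]; exact fun h => hqp h.symm)
      rw [e1, e2] at h
      rw [hs0, dl_self, B_of hq Hq1, E_of mpq (sub_ne_zero.mpr (fun h => hqp h.symm)) Hpq, one_mul,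
        one_mul]
      rw [hs0] at h
      exact deg hQ (nv0 _) (wf0 _) h
  by_cases hqp : q = p
  · refine le_trans ?_ F6
    have h := hU.d12 _ hb hb0 (by rw [e1, e2, hqp]) (by rw [e0, e3]; exact fun h => hs0 h.symm)
    rw [e0, e3, zero_sub, wf_neg, hneg] at h
    subst hqp
    rw [dl_self, B_of hp Hp1, E_of hs hs0 Hs1, one_mul, one_mul]
    exact deg hQ (nv0 _) (wf0 _) h
  by_cases hsp : s = p
  · refine le_trans ?_ F7
    have h := hU.d13 _ hb hb0 (by rw [e1, e3, hsp]) (by rw [e0, e2]; exact fun h => hq0 h.symm)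
    rw [e0, e2, zero_sub, wf_neg, hneg] at h
    subst hsp
    rw [dl_self, B_of hp Hp1, E_of hq hq0 Hq1, one_mul, one_mul]
    exact deg hQ (nv0 _) (wf0 _) h
  have dpq : p - q ≠ 0 := sub_ne_zero.mpr (fun h => hqp h.symm)
  have dps : p - s ≠ 0 := sub_ne_zero.mpr (fun h => hsp h.symm)
  have hnx : nx y (qd p q s) = nv y q * nv y s * nv y (p - q) * nv y (p - s) := by
    unfold nx
    rw [e0, e1, e2, e3, zero_sub, zero_sub, hneg, hneg]
  have hwx : wx f L (qd p q s) = wf K f L q * wf K f L s * wf K f L (p - q) * wf K f L (p - s) := by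
    unfold wx
    rw [e0, e1, e2, e3, zero_sub, zero_sub, wf_neg, wf_neg]
  have hgx : gx f L (qd p q s) = Nf K (f ⊔ idl K L p ⊔ idl K L (q - s)) := by
    unfold gx
    rw [e0, e1, e2, e3, zero_sub, idl_neg]
  have hgen := hU.gen _ hb hb0 (by
    rw [hnx]
    exact mul_ne_zero (mul_ne_zero (mul_ne_zero (nvne q hq hq0) (nvne s hs hs0))
      (nvne _ mpq dpq)) (nvne _ mps dps))
  rw [hnx, hwx, hgx] at hgen
  have g0 : 0 ≤ Nf K (f ⊔ idl K L p ⊔ idl K L (q - s)) := by unfold Nf; positivity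
  by_cases hp0 : p = 0
  · by_cases hsq : s = q
    · refine le_trans ?_ F3
      subst hsq; subst hp0
      rw [dl_self, dl_self, B_of hs Hs1]
      simp only [mul_one]
      exact ENNReal.ofReal_le_ofReal (hU.triv _ hb hb0)
    · refine le_trans ?_ F9
      have dqs : q - s ≠ 0 := sub_ne_zero.mpr (fun h => hsq h.symm)
      rw [hp0, dl_self, one_mul, E_of hq hq0 Hq1, E_of hs hs0 Hs1,
        ← ENNReal.ofReal_mul (by have := wf0 q; have := nv0 q; positivity),
        ← ENNReal.ofReal_mul (by positivity)]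
      apply ENNReal.ofReal_le_ofReal
      rw [hp0] at hgen
      refine hgen.trans ?_
      rw [zero_sub, zero_sub, wf_neg, wf_neg, hneg, hneg, mul_assoc _ (bt L y ^ (1 / 2 : ℝ)) _]
      apply mul_le_mul_of_nonneg_left _ hR
      have a1 : (wf K f L q * wf K f L s * wf K f L q * wf K f L s) ^ (1 / 2 : ℝ) =
          wf K f L q * wf K f L s := by
        rw [show wf K f L q * wf K f L s * wf K f L q * wf K f L s =
          (wf K f L q * wf K f L s) ^ 2 by ring, ← Real.sqrt_eq_rpow,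
          Real.sqrt_sq (mul_nonneg (wf0 q) (wf0 s))]
      have a2 : (nv y q * nv y s * nv y q * nv y s) ^ (-(1 / 4 + ε)) =
          nv y q ^ (-(1 / 2 + 2 * ε)) * nv y s ^ (-(1 / 2 + 2 * ε)) := by
        rw [show nv y q * nv y s * nv y q * nv y s = (nv y q * nv y s) ^ 2 by ring,
          ← Real.rpow_natCast, ← Real.rpow_mul (mul_nonneg (nv0 q) (nv0 s)),
          show ((2 : ℕ) : ℝ) * -(1 / 4 + ε) = -(1 / 2 + 2 * ε) by push_cast; ring,
          Real.mul_rpow (nv0 q) (nv0 s)]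
      have a3 : Nf K (f ⊔ idl K L 0 ⊔ idl K L (q - s)) ^ (1 / 2 : ℝ) ≤ bt L y ^ (1 / 2 : ℝ) := by
        apply Real.rpow_le_rpow (by unfold Nf; positivity) _ (by norm_num)
        exact (nf_mono (idne _ mqs dqs) le_sup_right).trans (idle _ mqs dqs Hqs)
      rw [a1, a2]
      calc _ ≤ wf K f L q * wf K f L s *
            (nv y q ^ (-(1 / 2 + 2 * ε)) * nv y s ^ (-(1 / 2 + 2 * ε))) * bt L y ^ (1 / 2 : ℝ) := by
            have := wf0 q
            have := wf0 s
            have := nv0 q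
            have := nv0 s
            gcongr
        _ = _ := by ring
  · by_cases hsq : s = q
    · refine le_trans ?_ F10
      rw [hsq, dl_self, one_mul, E_of hq hq0 Hq1, E_of mpq dpq Hpq,
        ← ENNReal.ofReal_mul (by have := wf0 q; have := nv0 q; positivity),
        ← ENNReal.ofReal_mul (by positivity)]
      apply ENNReal.ofReal_le_ofReal
      rw [hsq] at hgen
      refine hgen.trans ?_
      rw [mul_assoc _ (bt L y ^ (1 / 2 : ℝ)) _]
      apply mul_le_mul_of_nonneg_left _ hR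
      have a1 : (wf K f L q * wf K f L q * wf K f L (p - q) * wf K f L (p - q)) ^ (1 / 2 : ℝ) =
          wf K f L q * wf K f L (p - q) := by
        rw [show wf K f L q * wf K f L q * wf K f L (p - q) * wf K f L (p - q) =
          (wf K f L q * wf K f L (p - q)) ^ 2 by ring, ← Real.sqrt_eq_rpow,
          Real.sqrt_sq (mul_nonneg (wf0 q) (wf0 _))]
      have a2 : (nv y q * nv y q * nv y (p - q) * nv y (p - q)) ^ (-(1 / 4 + ε)) =
          nv y q ^ (-(1 / 2 + 2 * ε)) * nv y (p - q) ^ (-(1 / 2 + 2 * ε)) := by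
        rw [show nv y q * nv y q * nv y (p - q) * nv y (p - q) = (nv y q * nv y (p - q)) ^ 2 by ring,
          ← Real.rpow_natCast, ← Real.rpow_mul (mul_nonneg (nv0 q) (nv0 _)),
          show ((2 : ℕ) : ℝ) * -(1 / 4 + ε) = -(1 / 2 + 2 * ε) by push_cast; ring,
          Real.mul_rpow (nv0 q) (nv0 _)]
      have a3 : Nf K (f ⊔ idl K L p ⊔ idl K L (q - q)) ^ (1 / 2 : ℝ) ≤ bt L y ^ (1 / 2 : ℝ) := by
        apply Real.rpow_le_rpow (by unfold Nf; positivity) _ (by norm_num)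
        exact (nf_mono (idne _ hp hp0) (le_sup_right.trans le_sup_left)).trans (idle _ hp hp0 Hp1)
      rw [a1, a2]
      calc _ ≤ wf K f L q * wf K f L (p - q) *
            (nv y q ^ (-(1 / 2 + 2 * ε)) * nv y (p - q) ^ (-(1 / 2 + 2 * ε))) *
              bt L y ^ (1 / 2 : ℝ) := by
            have := wf0 q
            have := wf0 (p - q)
            have := nv0 q
            have := nv0 (p - q)
            gcongr
        _ = _ := by ring
    · refine le_trans ?_ F8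
      have dqs : q - s ≠ 0 := sub_ne_zero.mpr (fun h => hsq h.symm)
      have c0 : w6 f L y ε 0 p = ENNReal.ofReal (wf K f L p ^ (1 / 4 : ℝ)) :=
        W_of (g := fun h => wf K f L h ^ (1 / 4 : ℝ)) hp hp0 Hp1
      have c1 : w6 f L y ε 1 q = ENNReal.ofReal (wf K f L q ^ (1 / 2 : ℝ) *
        nv y q ^ (-(1 / 4 + ε))) :=
        W_of (g := fun h => wf K f L h ^ (1 / 2 : ℝ) *
        nv y h ^ (-(1 / 4 + ε))) hq hq0 Hq1
      have c2 : w6 f L y ε 2 s = ENNReal.ofReal (wf K f L s ^ (1 / 2 : ℝ) *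
        nv y s ^ (-(1 / 4 + ε))) :=
        W_of (g := fun h => wf K f L h ^ (1 / 2 : ℝ) *
        nv y h ^ (-(1 / 4 + ε))) hs hs0 Hs1
      have c3 : w6 f L y ε 3 (p - q) = ENNReal.ofReal (wf K f L (p - q) ^ (1 / 2 : ℝ) *
        nv y (p - q) ^ (-(1 / 4 + ε))) :=
        W_of (g := fun h => wf K f L h ^ (1 / 2 : ℝ) *
        nv y h ^ (-(1 / 4 + ε))) mpq dpq Hpq
      have c4 : w6 f L y ε 4 (p - s) = ENNReal.ofReal (wf K f L (p - s) ^ (1 / 2 : ℝ) *
        nv y (p - s) ^ (-(1 / 4 + ε))) :=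
        W_of (g := fun h => wf K f L h ^ (1 / 2 : ℝ) *
        nv y h ^ (-(1 / 4 + ε))) mps dps Hps
      have c5 : w6 f L y ε 5 (q - s) = ENNReal.ofReal (wf K f L (q - s) ^ (1 / 4 : ℝ)) :=
        W_of (g := fun h => wf K f L h ^ (1 / 4 : ℝ)) mqs dqs Hqs
      have p1 := wf0 p
      have p2 := wf0 q
      have p3 := wf0 s
      have p4 := wf0 (p - q)
      have p5 := wf0 (p - s)
      have p6 := wf0 (q - s)
      have n2 := nv0 q
      have n3 := nv0 s
      have n4 := nv0 (p - q)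
      have n5 := nv0 (p - s)
      rw [c0, c1, c2, c3, c4, c5, ← gen8 hR (by positivity) (by positivity) (by positivity)
        (by positivity) (by positivity)]
      apply ENNReal.ofReal_le_ofReal
      refine hgen.trans ?_
      apply mul_le_mul_of_nonneg_left _ hR
      have b1 : Nf K (f ⊔ idl K L p ⊔ idl K L (q - s)) ≤ wf K f L p :=
        nf_mono (sup_ne hf _) le_sup_left
      have b2 : Nf K (f ⊔ idl K L p ⊔ idl K L (q - s)) ≤ wf K f L (q - s) :=
        nf_mono (sup_ne hf _) (sup_le (le_sup_left.trans le_sup_left) le_sup_right)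
      have b3 : Nf K (f ⊔ idl K L p ⊔ idl K L (q - s)) ^ (1 / 2 : ℝ) ≤
          wf K f L p ^ (1 / 4 : ℝ) * wf K f L (q - s) ^ (1 / 4 : ℝ) := by
        calc Nf K (f ⊔ idl K L p ⊔ idl K L (q - s)) ^ (1 / 2 : ℝ) =
            Nf K (f ⊔ idl K L p ⊔ idl K L (q - s)) ^ (1 / 4 : ℝ) *
              Nf K (f ⊔ idl K L p ⊔ idl K L (q - s)) ^ (1 / 4 : ℝ) := by
              rw [← Real.rpow_add_of_nonneg g0 (by norm_num) (by norm_num)]
              norm_num
          _ ≤ _ := by gcongr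
      rw [Real.mul_rpow (by positivity) p5, Real.mul_rpow (by positivity) p4,
        Real.mul_rpow p2 p3, Real.mul_rpow (by positivity) n5, Real.mul_rpow (by positivity) n4,
        Real.mul_rpow n2 n3]
      calc _ ≤ (wf K f L q ^ (1 / 2 : ℝ) * wf K f L s ^ (1 / 2 : ℝ) *
            wf K f L (p - q) ^ (1 / 2 : ℝ) * wf K f L (p - s) ^ (1 / 2 : ℝ)) *
            (nv y q ^ (-(1 / 4 + ε)) * nv y s ^ (-(1 / 4 + ε)) * nv y (p - q) ^ (-(1 / 4 + ε)) *
              nv y (p - s) ^ (-(1 / 4 + ε))) *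
              (wf K f L p ^ (1 / 4 : ℝ) * wf K f L (q - s) ^ (1 / 4 : ℝ)) := by gcongr
        _ = _ := by ring

end Pool.Agent.H18.BH.MC
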