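import Pool.Agent.H29.BH.Targets2

/-!
# The sum of the norms of the greatest common divisors of the multipliers
-/

set_option autoImplicit false

open NumberField
open scoped nonZeroDivisors

namespace Pool.Agent.H18.BH

open Pool.Agent.H29.BH Pool.Agent.H23.LB
open Pool.Agent.H29.TC (dvs)

private lemma nf_one_le {K : Type} [Field K] [NumberField K] {I : Ideal (𝓞 K)} (h : I ≠ ⊥) :
    1 ≤ Nf K I := by
  unfold Nf
  have : Ideal.absNorm I ≠ 0 := by rwa [Ne, Ideal.absNorm_eq_zero_iff]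
  exact_mod_cast Nat.one_le_iff_ne_zero.mpr this

private lemma cnt (hSE : Pool.Agent.H23.LB.T_SE) (n : ℕ) (d : ℝ) (hd : 0 < d) :
    ∃ C : ℝ, 1 ≤ C ∧ ∀ (K : Type) [Field K] [NumberField K], Module.finrank ℚ K = n →
      ∀ (x : ℝ) (T : Finset (Ideal (𝓞 K))), 0 < x → (∀ I ∈ T, I ≠ ⊥ ∧ Nf K I ≤ x) →
        (T.card : ℝ) ≤ C * x ^ (1 + d) := by
  classical
  obtain ⟨C, hC⟩ := hSE.2.1 n (1 + d) (by linarith)
  refine ⟨max C 1, le_max_right _ _, ?_⟩
  intro K _ _ hK x T hx hT
  have hS := hSE.1 K ((1 + d : ℝ) : ℂ) (by simp; linarith)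
  have e : (fun I : {I : Ideal (𝓞 K) // I ≠ ⊥} =>
      ‖(Ideal.absNorm I.1 : ℂ) ^ (-((1 + d : ℝ) : ℂ))‖) =
      fun I : {I : Ideal (𝓞 K) // I ≠ ⊥} => (Ideal.absNorm I.1 : ℝ) ^ (-(1 + d)) := by
    funext I
    have hpos : 0 < Ideal.absNorm I.1 := by
      have : Ideal.absNorm I.1 ≠ 0 := by
        rw [Ne, Ideal.absNorm_eq_zero_iff]; exact I.2
      omega
    rw [Complex.norm_natCast_cpow_of_pos hpos]
    simp
  rw [e] at hS
  have h1 := (hS.sum_le_tsum (T.subtype (fun I => I ≠ ⊥)) (fun I _ => by positivity)).trans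
    (hC K hK)
  have h2 : (T.card : ℝ) * x ^ (-(1 + d)) ≤
      ∑ I ∈ T.subtype (fun I => I ≠ ⊥), (Ideal.absNorm I.1 : ℝ) ^ (-(1 + d)) := by
    have hc : ((T.subtype (fun I => I ≠ ⊥)).card : ℝ) = T.card := by
      rw [Finset.card_subtype, Finset.filter_true_of_mem (fun I hI => (hT I hI).1)]
    rw [← hc, ← nsmul_eq_mul]
    refine Finset.card_nsmul_le_sum _ _ _ (fun I hI => ?_)
    have hI' := hT I.1 (Finset.mem_subtype.mp hI)
    have h0 : 1 ≤ Nf K I.1 := nf_one_le I.2
    change x ^ (-(1 + d)) ≤ (Nf K I.1) ^ (-(1 + d))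
    exact Real.rpow_le_rpow_of_nonpos (by linarith) hI'.2 (by linarith)
  have h3 : (T.card : ℝ) * x ^ (-(1 + d)) ≤ max C 1 := (h2.trans h1).trans (le_max_left _ _)
  have hxp : 0 < x ^ (1 + d) := Real.rpow_pos_of_pos hx _
  rw [Real.rpow_neg hx.le] at h3
  calc (T.card : ℝ) = (T.card * (x ^ (1 + d))⁻¹) * x ^ (1 + d) := by field_simp
    _ ≤ max C 1 * x ^ (1 + d) := by gcongr

theorem pf_N_GC (hSE : Pool.Agent.H23.LB.T_SE) (hDV : Pool.Agent.H29.TC.T_DV)
    (hDF : Pool.Agent.H29.TC.T_DF) : N_GC := by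
  classical
  intro n hn ε hε hε1
  obtain ⟨C1, hC1, h1⟩ := cnt hSE n (ε / 2) (by linarith)
  obtain ⟨C2, h2⟩ := hDV n (ε / 2) (by linarith)
  set C2' := max C2 1 with hC2'
  have hC2one : 1 ≤ C2' := le_max_right _ _
  refine ⟨4 * C1 * C2', by nlinarith, ?_⟩
  intro K _ _ hK f A S hM
  have hA := hM.one
  have hA0 : 0 < A := by linarith
  have hlt : ∀ a ∈ S, Nf K a ≤ 2 * A := fun a ha => (hM.size a ha).2.le
  have htwo : (2 : ℝ) ^ (1 + ε / 2) ≤ 4 := by
    calc (2 : ℝ) ^ (1 + ε / 2) ≤ 2 ^ (2 : ℝ) :=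
          Real.rpow_le_rpow_of_exponent_le (by norm_num) (by linarith)
      _ = 4 := by norm_num
  have htwo' : (2 : ℝ) ^ (1 + ε) ≤ 4 := by
    calc (2 : ℝ) ^ (1 + ε) ≤ 2 ^ (2 : ℝ) :=
          Real.rpow_le_rpow_of_exponent_le (by norm_num) (by linarith)
      _ = 4 := by norm_num
  have hAe : A ^ (1 + ε / 2) ≤ A ^ (1 + ε) :=
    Real.rpow_le_rpow_of_exponent_le hA (by linarith)
  have hApos : 0 < A ^ (1 + ε) := Real.rpow_pos_of_pos hA0 _
  constructor
  · have key : ∀ a ∈ S, ∑ b ∈ S, Nf K (a ⊔ b) ≤ 4 * C1 * C2' * A ^ (1 + ε) := by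
      intro a ha
      have ha0 := hM.ne a ha
      have hmap : ∀ b ∈ S, a ⊔ b ∈ dvs K a := fun b _ => (hDF K a ha0 _).mpr le_sup_left
      rw [← Finset.sum_fiberwise_of_maps_to hmap]
      have hin : ∀ e ∈ dvs K a, ∑ b ∈ S with a ⊔ b = e, Nf K (a ⊔ b) ≤
          C1 * (2 * A) ^ (1 + ε / 2) := by
        intro e he
        have hae : a ≤ e := (hDF K a ha0 e).mp he
        have he0 : e ≠ ⊥ := fun h => ha0 (le_bot_iff.mp (h ▸ hae))
        have hNe := nf_one_le he0
        have hNe0 : 0 < Nf K e := by linarith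
        set T := S.filter (fun b => a ⊔ b = e) with hT
        have hbe : ∀ b ∈ T, b ≤ e := fun b hb => (Finset.mem_filter.mp hb).2 ▸ le_sup_right
        have hex : ∀ b : Ideal (𝓞 K), ∃ b' : Ideal (𝓞 K), b ≤ e → b = e * b' := by
          intro b
          by_cases h : b ≤ e
          · obtain ⟨b', hb'⟩ := Ideal.dvd_iff_le.mpr h
            exact ⟨b', fun _ => hb'⟩
          · exact ⟨⊥, fun h' => absurd h' h⟩
        choose g hg using hex
        have hinj : Set.InjOn g T := by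
          intro b hb c hc hbc
          rw [hg b (hbe b hb), hg c (hbe c hc), hbc]
        have hcard : (T.image g).card = T.card := Finset.card_image_of_injOn hinj
        have hcnt := h1 K hK (2 * A / Nf K e) (T.image g) (by positivity) (by
          intro I hI
          obtain ⟨b, hb, rfl⟩ := Finset.mem_image.mp hI
          have hbS := (Finset.mem_filter.mp hb).1
          have hb0 := hM.ne b hbS
          have hbg := hg b (hbe b hb)
          have hg0 : g b ≠ ⊥ := by
            intro h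
            rw [h, Ideal.mul_bot] at hbg
            exact hb0 hbg
          refine ⟨hg0, ?_⟩
          have hN : Nf K b = Nf K e * Nf K (g b) := by
            unfold Nf
            conv_lhs => rw [hbg]
            rw [map_mul]; push_cast; ring
          rw [le_div_iff₀ hNe0]
          have := hlt b hbS
          rw [hN] at this
          linarith)
        rw [hcard] at hcnt
        have hsum : ∑ b ∈ T, Nf K (a ⊔ b) = T.card * Nf K e := by
          rw [Finset.sum_congr rfl (g := fun _ => Nf K e)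
            (fun b hb => by rw [(Finset.mem_filter.mp hb).2]), Finset.sum_const, nsmul_eq_mul]
        rw [hsum]
        have h2A : (0 : ℝ) < 2 * A := by linarith
        calc (T.card : ℝ) * Nf K e ≤ (C1 * (2 * A / Nf K e) ^ (1 + ε / 2)) * Nf K e := by gcongr
          _ = C1 * ((2 * A) ^ (1 + ε / 2) * (Nf K e / Nf K e ^ (1 + ε / 2))) := by
              rw [Real.div_rpow h2A.le hNe0.le]; ring
          _ ≤ C1 * ((2 * A) ^ (1 + ε / 2) * 1) := by
              gcongr
              rw [div_le_one (Real.rpow_pos_of_pos hNe0 _)]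
              calc Nf K e = Nf K e ^ (1 : ℝ) := (Real.rpow_one _).symm
                _ ≤ Nf K e ^ (1 + ε / 2) :=
                  Real.rpow_le_rpow_of_exponent_le hNe (by linarith)
          _ = _ := by ring
      refine (Finset.sum_le_sum hin).trans ?_
      rw [Finset.sum_const, nsmul_eq_mul]
      have hd := h2 K hK a ha0
      have hNa := nf_one_le ha0
      have h2A : (0 : ℝ) < 2 * A := by linarith
      have hd' : ((dvs K a).card : ℝ) ≤ C2' * (2 * A) ^ (ε / 2) := by
        refine hd.trans ?_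
        have : Nf K a ^ (ε / 2) ≤ (2 * A) ^ (ε / 2) :=
          Real.rpow_le_rpow (by linarith) (hlt a ha) (by linarith)
        have h0 : 0 < Nf K a ^ (ε / 2) := Real.rpow_pos_of_pos (by linarith) _
        calc C2 * Nf K a ^ (ε / 2) ≤ C2' * Nf K a ^ (ε / 2) := by
              gcongr
              exact le_max_left _ _
          _ ≤ _ := by gcongr
      calc ((dvs K a).card : ℝ) * (C1 * (2 * A) ^ (1 + ε / 2)) ≤
          (C2' * (2 * A) ^ (ε / 2)) * (C1 * (2 * A) ^ (1 + ε / 2)) := by gcongr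
        _ = C1 * C2' * ((2 * A) ^ (ε / 2) * (2 * A) ^ (1 + ε / 2)) := by ring
        _ = C1 * C2' * (2 * A) ^ (1 + ε) := by
            rw [← Real.rpow_add h2A]; congr 2; ring
        _ = C1 * C2' * (2 ^ (1 + ε) * A ^ (1 + ε)) := by
            rw [Real.mul_rpow (by norm_num) hA0.le]
        _ ≤ C1 * C2' * (4 * A ^ (1 + ε)) := by gcongr
        _ = _ := by ring
    calc ∑ a ∈ S, ∑ b ∈ S, Nf K (a ⊔ b) ≤ ∑ a ∈ S, 4 * C1 * C2' * A ^ (1 + ε) :=
          Finset.sum_le_sum key
      _ = _ := by rw [Finset.sum_const, nsmul_eq_mul]; ring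
  · have hc := h1 K hK (2 * A) S (by linarith) (fun I hI => ⟨hM.ne I hI, hlt I hI⟩)
    calc (S.card : ℝ) ≤ C1 * (2 * A) ^ (1 + ε / 2) := hc
      _ = C1 * (2 ^ (1 + ε / 2) * A ^ (1 + ε / 2)) := by
          rw [Real.mul_rpow (by norm_num) hA0.le]
      _ ≤ C1 * (4 * A ^ (1 + ε)) := by gcongr
      _ = (4 * C1 * 1) * A ^ (1 + ε) := by ring
      _ ≤ (4 * C1 * C2') * A ^ (1 + ε) := by gcongr

end Pool.Agent.H18.BH
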