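import Pool.Agent.H29.BH.Targets3
import Pool.Agent.H49.BH.N_CA

/-!
# Module R_CA: the mean values of the counting functions of two multipliers
-/

set_option autoImplicit false

open NumberField NumberField.InfinitePlace NumberField.Units
  NumberField.Units.dirichletUnitTheorem MeasureTheory Set Filter Complex
open scoped nonZeroDivisors ENNReal

namespace Pool.Agent.H18.BH

open Pool.Agent.H25.HK Pool.Agent.H23.LB Pool.Agent.H23.LC Pool.Agent.H29.DW
open Pool.Agent.H29.BH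
open Pool.Agent.H49.BH.NCA

/-- (CA) the mean values of the counting functions of two multipliers. -/
theorem pf_R_CA : R_CA := by
  classical
  intro n hn
  have hpi := Real.pi_gt_three
  have hpn : 1 ≤ (4 * Real.pi) ^ n := one_le_pow₀ (by linarith)
  refine ⟨(4 * Real.pi) ^ n, hpn, ?_⟩
  intro K _ _ hK f a b L y η F z hf ha hb hL hFS hη
  have hcnt := cntK (K := K)
  set E : ℝ := ∏ v : InfinitePlace K, η v ^ v.mult with hE
  have hE0 : 0 < E := Finset.prod_pos fun v _ => pow_pos (hη v) _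
  have hNf : ∀ c : Ideal (𝓞 K), 0 ≤ Nf K c := fun c => by
    unfold Nf
    positivity
  have hab : a ⊓ b ≠ ⊥ := by
    intro h
    have h1 : a * b ≤ ⊥ := h ▸ Ideal.mul_le_inf
    have h2 := Ideal.mul_eq_bot.1 (le_bot_iff.1 h1)
    tauto
  have hsup : a ⊔ b ≠ ⊥ := fun h => ha (by
    have : a ≤ ⊥ := h ▸ le_sup_left
    exact le_bot_iff.1 this)
  set m : ℝ := Nf K (a ⊔ b) * ((4 * Real.pi) ^ n * E) with hm
  have hm0 : 0 ≤ m := by
    have := hNf (a ⊔ b)
    positivity
  have hmm : ENNReal.ofReal m =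
      ENNReal.ofReal ((4 * Real.pi) ^ n * E) * ENNReal.ofReal (Nf K (a ⊔ b)) := by
    rw [hm, mul_comm, ENNReal.ofReal_mul (by positivity)]
  calc ∫⁻ ζ in F, nA f L y η a ζ z * nA f L y η b ζ z ∂mK K
      ≤ ∫⁻ ζ in F, ∑' h : K, (if (h ∈ Mc f L (a ⊓ b) ∧ ∀ v, ‖sy y h v‖ ≤ 4 * η v) then
          Ts f L y η (a ⊔ b) z (w0 f L a b h) ζ else 0) ∂mK K :=
        lintegral_mono fun ζ => pair_le ha hb z ζ
    _ = ∑' h : K, ∫⁻ ζ in F, (if (h ∈ Mc f L (a ⊓ b) ∧ ∀ v, ‖sy y h v‖ ≤ 4 * η v) then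
          Ts f L y η (a ⊔ b) z (w0 f L a b h) ζ else 0) ∂mK K := by
        refine lintegral_tsum fun h => ?_
        by_cases hh : h ∈ Mc f L (a ⊓ b) ∧ ∀ v, ‖sy y h v‖ ≤ 4 * η v
        · simp only [if_pos hh]
          exact (Ts_meas f L y η (a ⊔ b) z (w0 f L a b h)).aemeasurable
        · simp only [if_neg hh]
          exact aemeasurable_const
    _ ≤ ∑' h : K, (if (h ∈ Mc f L (a ⊓ b) ∧ ∀ v, ‖sy y h v‖ ≤ 4 * η v) then
          ENNReal.ofReal m else 0) := by
        refine ENNReal.tsum_le_tsum fun h => ?_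
        by_cases hh : h ∈ Mc f L (a ⊓ b) ∧ ∀ v, ‖sy y h v‖ ≤ 4 * η v
        · simp only [if_pos hh]
          have := coset_le hFS hη hf hL hsup z (w0 f L a b h)
          rwa [hK] at this
        · simp only [if_neg hh]
          simp
    _ ≤ ∑' h : K, ((if h = 0 then ENNReal.ofReal m else 0) +
          (ENNReal.ofReal m * (if (h ∈ Mc f L (a ⊓ b) ∧ h ≠ 0 ∧
            ∀ v, ‖sy y h v‖ ≤ 4 * η v) then 1 else 0))) := by
        refine ENNReal.tsum_le_tsum fun h => ?_
        by_cases hh : h ∈ Mc f L (a ⊓ b) ∧ ∀ v, ‖sy y h v‖ ≤ 4 * η v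
        · rw [if_pos hh]
          by_cases h0 : h = 0
          · rw [if_pos h0]
            exact le_self_add
          · rw [if_neg h0, if_pos ⟨hh.1, h0, hh.2⟩, mul_one, zero_add]
        · rw [if_neg hh]
          exact zero_le
    _ = ENNReal.ofReal m * (1 + cn (Mc f L (a ⊓ b)) y (fun v => 4 * η v)) := by
        rw [ENNReal.tsum_add, ENNReal.tsum_mul_left, tsum_ite_eq, mul_add, mul_one]
        rfl
    _ = _ := by
        rw [hmm, mul_assoc]
        rfl

end Pool.Agent.H18.BH
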